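import Pool.Agent.Helper16.CE.Top

/-! MP_95af1f_mp, part Mo: moments and pairings. -/

set_option autoImplicit false

namespace Pool.Agent.Helper96.CE
open MeasureTheory Pool.Agent.Helper16.CE Pool.Agent.Helper78.CE Set
open scoped ENNReal

theorem mo_im0 : (0 : ℝ) ≤ (0 : ℂ).im := by simp

/-- symmetry of the kernel (Fubini) -/
theorem mom_T (j : Fin 3) (k : ℂ) (hk : 0 ≤ k.im) (V : E3 → ℂ) (hV : Pot V) (u : S) :
    mom j (T k V u) = ∫ z, V z * ev u z *
      ∫ y in Metric.ball (0 : E3) 1, gk k ‖z - y‖ * (y j : ℂ) := by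
  rw [mom_spec]
  have e1 : ∫ y in Metric.ball (0 : E3) 1, (y j : ℂ) * ev (T k V u) y =
      ∫ y, ∫ z, src j y * (gk k ‖y - z‖ * (V z * ev u z)) := by
    have h1 : ∀ y : E3, (y j : ℂ) * ev (T k V u) y = ev (T k V u) y * (y j : ℂ) := fun y => mul_comm _ _
    simp only [h1]
    rw [setInt_src]
    congr 1
    funext y
    rw [T_spec k hk V hV, integral_const_mul, mul_comm]
  rw [e1]
  set F : E3 → E3 → ℂ := fun y z => src j y * (gk k ‖y - z‖ * (V z * ev u z)) with hF
  have hmV := (hV.mul_ev u).1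
  have hFm : Measurable (Function.uncurry F) := by
    apply Measurable.mul
    · exact (src_meas j).comp measurable_fst
    · apply Measurable.mul
      · exact (meas_gk k).comp (measurable_fst.sub measurable_snd).norm
      · exact hmV.comp measurable_snd
  set Cs : ℝ := (4 * Real.pi)⁻¹ * (2 * Real.pi * 1 ^ 2 * 1 + (∫ y, ‖src j y‖) / 1) with hCs
  have hs := fun z => sing_one (src j) (src_meas j) 1 (src_le j) (src_int j) z
  have hpt : ∀ y z, ‖F y z‖ ≤ ‖V z * ev u z‖ * ((4 * Real.pi)⁻¹ * (‖src j y‖ / ‖z - y‖)) := by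
    intro y z
    simp only [hF]
    rw [norm_mul, norm_mul]
    have h2 := gk_norm_le k hk ‖y - z‖ (norm_nonneg _)
    rw [norm_sub_rev z y]
    calc ‖src j y‖ * (‖gk k ‖y - z‖‖ * ‖V z * ev u z‖) ≤
          ‖src j y‖ * (((4 * Real.pi)⁻¹ * (1 / ‖y - z‖)) * ‖V z * ev u z‖) := by gcongr
      _ = _ := by ring
  have hint : Integrable (Function.uncurry F) (volume.prod volume) := by
    rw [integrable_prod_iff' hFm.aestronglyMeasurable]
    constructor
    · refine Filter.Eventually.of_forall fun z => ?_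
      refine (((hs z).1.const_mul (4 * Real.pi)⁻¹).const_mul ‖V z * ev u z‖).mono' ?_
        (Filter.Eventually.of_forall fun y => hpt y z)
      exact (hFm.comp (measurable_id.prodMk measurable_const)).aestronglyMeasurable
    · refine ((hV.mul_ev u).2.1.norm.mul_const Cs).mono' ?_ (Filter.Eventually.of_forall fun z => ?_)
      · have hsw : Measurable (fun p : E3 × E3 => Function.uncurry F (p.2, p.1)) :=
          hFm.comp (measurable_snd.prodMk measurable_fst)
        exact (hsw.norm.stronglyMeasurable.integral_prod_right').aestronglyMeasurable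
      · rw [Real.norm_eq_abs, abs_of_nonneg (integral_nonneg fun y => norm_nonneg _)]
        have h3 : ∫ y, ‖F y z‖ ≤ ∫ y, ‖V z * ev u z‖ * ((4 * Real.pi)⁻¹ * (‖src j y‖ / ‖z - y‖)) :=
          integral_mono_of_nonneg (Filter.Eventually.of_forall fun y => norm_nonneg _)
            (((hs z).1.const_mul (4 * Real.pi)⁻¹).const_mul ‖V z * ev u z‖)
            (Filter.Eventually.of_forall fun y => hpt y z)
        refine h3.trans ?_
        rw [integral_const_mul, integral_const_mul]
        apply mul_le_mul_of_nonneg_left _ (norm_nonneg _)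
        rw [hCs]
        apply mul_le_mul_of_nonneg_left _ (by positivity)
        exact (hs z).2 1 one_pos
  rw [integral_integral_swap hint]
  congr 1
  funext z
  rw [setInt_src, ← integral_const_mul]
  congr 1
  funext y
  simp only [hF]
  rw [norm_sub_rev y z]
  ring

theorem mo_pot_vv (f : E3 → ℝ) (f1 f2 : ℝ) (hf : Measurable f) (hf1 : 0 < f1)
    (hf12 : ∀ x, f1 ≤ f x ∧ f x ≤ f2) (hfi : ∀ (L : E3 ≃ₗᵢ[ℝ] E3) x, f (L x) = f x) :
    Pot (vv f) := by
  have hm : Measurable (vv f) := by
    unfold vv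
    apply Measurable.ite
    · exact measurableSet_lt measurable_norm measurable_const
    · exact Complex.measurable_ofReal.comp (measurable_const.div hf)
    · exact measurable_const
  have hb : ∀ x, ‖vv f x‖ ≤ 1 / f1 := by
    intro x
    unfold vv
    split_ifs
    · rw [Complex.norm_real, norm_div, norm_neg, norm_one, Real.norm_eq_abs,
        abs_of_pos (lt_of_lt_of_le hf1 (hf12 x).1)]
      exact one_div_le_one_div_of_le hf1 (hf12 x).1
    · rw [norm_zero]; positivity
  refine ⟨hm, ⟨_, hb⟩, ?_, ?_, ?_⟩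
  · have h1 : IntegrableOn (vv f) (Metric.ball 0 1) volume :=
      Measure.integrableOn_of_bounded (M := 1 / f1) measure_ball_lt_top.ne hm.aestronglyMeasurable
        (Filter.Eventually.of_forall hb)
    have h2 : vv f = (Metric.ball (0 : E3) 1).indicator (vv f) := by
      funext x
      by_cases hx : x ∈ Metric.ball (0 : E3) 1
      · rw [indicator_of_mem hx]
      · rw [indicator_of_notMem hx]
        unfold vv
        rw [if_neg (fun h => hx (mem_ball_zero_iff.2 h))]
    rw [h2]
    exact h1.integrable_indicator measurableSet_ball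
  · intro x
    unfold vv
    have := hfi (LinearIsometryEquiv.neg ℝ) x
    simp only [LinearIsometryEquiv.coe_neg] at this
    rw [norm_neg, this]
  · intro x
    unfold vv
    rw [LinearIsometryEquiv.norm_map, hfi]

theorem mo_pot_Q : Pot Q := by
  have hz : Measurable zp := by unfold zp; fun_prop
  have hm : Measurable Q := by
    unfold Q
    apply Measurable.ite
    · exact measurableSet_lt measurable_norm measurable_const
    · exact hz.pow_const 2
    · exact measurable_const
  have hb : ∀ x, ‖Q x‖ ≤ 4 := by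
    intro x
    unfold Q
    split_ifs with hx
    · rw [norm_pow]
      have h1 : ‖zp x‖ ≤ 2 := by
        unfold zp
        refine (norm_add_le _ _).trans ?_
        rw [norm_mul, Complex.norm_I, one_mul, Complex.norm_real, Complex.norm_real]
        have := PiLp.norm_apply_le x 0
        have := PiLp.norm_apply_le x 1
        linarith
      nlinarith [norm_nonneg (zp x)]
    · rw [norm_zero]; norm_num
  refine ⟨hm, ⟨_, hb⟩, ?_, ?_, ?_⟩
  · have h1 : IntegrableOn Q (Metric.ball 0 1) volume :=
      Measure.integrableOn_of_bounded (M := 4) measure_ball_lt_top.ne hm.aestronglyMeasurable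
        (Filter.Eventually.of_forall hb)
    have h2 : Q = (Metric.ball (0 : E3) 1).indicator Q := by
      funext x
      by_cases hx : x ∈ Metric.ball (0 : E3) 1
      · rw [indicator_of_mem hx]
      · rw [indicator_of_notMem hx]
        unfold Q
        rw [if_neg (fun h => hx (mem_ball_zero_iff.2 h))]
    rw [h2]
    exact h1.integrable_indicator measurableSet_ball
  · intro x
    unfold Q zp
    rw [norm_neg]
    split_ifs
    · simp only [PiLp.neg_apply]
      push_cast
      ring
    · rfl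
  · intro x
    unfold Q zp
    rw [LinearIsometryEquiv.norm_map, rf_apply, rf_apply]
    simp

/-- positivity of integrals over the ball -/
theorem pos_ball (g : E3 → ℝ) (hm : Measurable g) (C : ℝ)
    (hb : ∀ y ∈ Metric.ball (0 : E3) 1, |g y| ≤ C) (h0 : ∀ y ∈ Metric.ball (0 : E3) 1, 0 ≤ g y)
    (hp : ∀ y ∈ Metric.ball (0 : E3) 1, 1 / 4 < y 0 → 0 < g y) :
    0 < ∫ y in Metric.ball (0 : E3) 1, g y := by
  have hint : IntegrableOn g (Metric.ball (0 : E3) 1) volume := by
    refine Measure.integrableOn_of_bounded (M := C) measure_ball_lt_top.ne hm.aestronglyMeasurable ?_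
    refine (ae_restrict_iff' measurableSet_ball).2 (Filter.Eventually.of_forall fun y hy => ?_)
    rw [Real.norm_eq_abs]
    exact hb y hy
  rw [← integral_indicator measurableSet_ball, integral_pos_iff_support_of_nonneg (fun y => by
    by_cases hy : y ∈ Metric.ball (0 : E3) 1
    · rw [indicator_of_mem hy]; exact h0 y hy
    · rw [indicator_of_notMem hy]; exact le_rfl) (hint.integrable_indicator measurableSet_ball)]
  have hsub : Metric.ball (EuclideanSpace.single 0 (1 / 2) : E3) (1 / 4) ⊆
      Function.support ((Metric.ball (0 : E3) 1).indicator g) := by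
    intro z hz
    rw [Metric.mem_ball, dist_eq_norm] at hz
    have h5 : ‖(EuclideanSpace.single 0 (1 / 2) : E3)‖ = 1 / 2 := by
      rw [PiLp.norm_single]; norm_num
    have h6 : z ∈ Metric.ball (0 : E3) 1 := by
      rw [mem_ball_zero_iff]
      have := norm_add_le (z - (EuclideanSpace.single 0 (1 / 2) : E3)) (EuclideanSpace.single 0 (1 / 2))
      rw [sub_add_cancel, h5] at this
      linarith
    have h7 : |z 0 - 1 / 2| < 1 / 4 := by
      have := PiLp.norm_apply_le (z - (EuclideanSpace.single 0 (1 / 2) : E3)) 0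
      have h8 : (z - (EuclideanSpace.single 0 (1 / 2) : E3)) 0 = z 0 - 1 / 2 := by simp
      rw [h8, Real.norm_eq_abs] at this
      linarith
    have h9 : 1 / 4 < z 0 := by
      have := (abs_lt.1 h7).1
      linarith
    rw [Function.mem_support, indicator_of_mem h6]
    exact (hp z h6 h9).ne'
  exact lt_of_lt_of_le (Metric.measure_ball_pos _ _ (by norm_num)) (measure_mono hsub)

section
variable (f : E3 → ℝ) (f1 f2 : ℝ) (hf : Measurable f) (hf1 : 0 < f1)
    (hf12 : ∀ x, f1 ≤ f x ∧ f x ≤ f2) (hfi : ∀ (L : E3 ≃ₗᵢ[ℝ] E3) x, f (L x) = f x)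
    (hpsi : ∀ (j : Fin 3) (x : E3), ‖x‖ < 1 →
      ∫ y in Metric.ball (0 : E3) 1, gk 0 ‖x - y‖ * (y j : ℂ) = (f x : ℂ) * (x j : ℂ))

include hpsi in
theorem psi_in (j : Fin 3) (hj : j ≠ 2) (x : E3) (hx : ‖x‖ < 1) :
    ev (psi j) x = (f x : ℂ) * (x j : ℂ) := by
  rw [psi_spec j hj, hpsi j x hx]

include hf hf1 hf12 hfi hpsi

theorem T_psi (j : Fin 3) (hj : j ≠ 2) : T 0 (vv f) (psi j) = - psi j := by
  apply ev_ext
  intro x
  rw [T_spec 0 mo_im0 _ (mo_pot_vv f f1 f2 hf hf1 hf12 hfi), ev_neg, psi_spec j hj x, setInt_src,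
    ← integral_neg]
  congr 1
  funext y
  unfold src
  by_cases hy : y ∈ Metric.ball (0 : E3) 1
  · rw [indicator_of_mem hy]
    have hy1 := mem_ball_zero_iff.1 hy
    rw [psi_in f hpsi j hj y hy1]
    unfold vv
    rw [if_pos hy1]
    have hfy : (f y : ℂ) ≠ 0 := by
      exact_mod_cast (lt_of_lt_of_le hf1 (hf12 y).1).ne'
    push_cast
    field_simp
  · rw [indicator_of_notMem hy]
    unfold vv
    rw [if_neg (fun h => hy (mem_ball_zero_iff.2 h))]
    simp

theorem mom_Tv (j : Fin 3) (u : S) : mom j (T 0 (vv f) u) = - mom j u := by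
  rw [mom_T j 0 mo_im0 _ (mo_pot_vv f f1 f2 hf hf1 hf12 hfi), mom_spec,
    ← integral_indicator measurableSet_ball, ← integral_neg]
  congr 1
  funext z
  by_cases hz : z ∈ Metric.ball (0 : E3) 1
  · rw [indicator_of_mem hz]
    have hz1 := mem_ball_zero_iff.1 hz
    rw [hpsi j z hz1]
    unfold vv
    rw [if_pos hz1]
    have hfy : (f z : ℂ) ≠ 0 := by
      exact_mod_cast (lt_of_lt_of_le hf1 (hf12 z).1).ne'
    push_cast
    field_simp
  · rw [indicator_of_notMem hz]
    unfold vv
    rw [if_neg (fun h => hz (mem_ball_zero_iff.2 h))]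
    simp

omit hf hf1 hf12 hfi in
theorem mom_psi (i j : Fin 3) (hj : j ≠ 2) : mom i (psi j) =
    ((∫ y in Metric.ball (0 : E3) 1, f y * (y i * y j) : ℝ) : ℂ) := by
  rw [mom_spec, ← integral_complex_ofReal]
  apply setIntegral_congr_fun measurableSet_ball
  intro y hy
  simp only
  rw [psi_in f hpsi j hj y (mem_ball_zero_iff.1 hy)]
  push_cast
  ring

omit hf hf1 hf12 hpsi in
theorem ball_iso (L : E3 ≃ₗᵢ[ℝ] E3) (g : E3 → ℝ) :
    ∫ y in Metric.ball (0 : E3) 1, f y * g (L y) = ∫ y in Metric.ball (0 : E3) 1, f y * g y := by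
  rw [← integral_indicator measurableSet_ball, ← integral_indicator measurableSet_ball]
  rw [← L.measurePreserving.integral_comp' (f := L.toMeasurableEquiv)
    (g := (Metric.ball (0 : E3) 1).indicator (fun y => f y * g y))]
  congr 1
  funext y
  show _ = (Metric.ball (0 : E3) 1).indicator (fun y => f y * g y) (L y)
  have hb : L y ∈ Metric.ball (0 : E3) 1 ↔ y ∈ Metric.ball (0 : E3) 1 := by
    rw [mem_ball_zero_iff, mem_ball_zero_iff, L.norm_map]
  by_cases hy : y ∈ Metric.ball (0 : E3) 1
  · rw [indicator_of_mem hy, indicator_of_mem (hb.2 hy), hfi]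
  · rw [indicator_of_notMem hy, indicator_of_notMem (fun h => hy (hb.1 h))]

omit hf hf1 hf12 hpsi in
theorem cross_zero (i j : Fin 3) (hij : i ≠ j) :
    ∫ y in Metric.ball (0 : E3) 1, f y * (y i * y j) = 0 := by
  have h1 := ball_iso f hfi (rf i) (fun y => y i * y j)
  have h2 : ∀ y : E3, f y * ((rf i y) i * (rf i y) j) = -(f y * (y i * y j)) := by
    intro y
    rw [rf_apply, rf_apply, if_pos rfl, if_neg (fun h => hij h.symm)]
    ring
  simp only [h2, integral_neg] at h1
  linarith

omit hf hf1 hf12 hpsi in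
theorem diag_eq : ∫ y in Metric.ball (0 : E3) 1, f y * (y 0 * y 0) =
    ∫ y in Metric.ball (0 : E3) 1, f y * (y 1 * y 1) := by
  have h1 := ball_iso f hfi (rot (Real.pi / 2)) (fun y => y 0 * y 0)
  have h2 : ∀ y : E3, f y * ((rot (Real.pi / 2) y) 0 * (rot (Real.pi / 2) y) 0) =
      f y * (y 1 * y 1) := by
    intro y
    rw [rot_apply, rotFun_zero']
    simp
  simp only [h2] at h1
  exact h1.symm

/-- `nuP psiP = nuM psiM = ½ ∫_B (x₀²+x₁²) f > 0`, `nuP psiM = nuM psiP = 0` -/
theorem nu_psi : ∃ δ : ℝ, 0 < δ ∧ nuP psiP = δ ∧ nuM psiM = δ ∧ nuP psiM = 0 ∧ nuM psiP = 0 := by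
  refine ⟨∫ y in Metric.ball (0 : E3) 1, f y * (y 0 * y 0), ?_, ?_⟩
  · apply pos_ball _ (by fun_prop) f2
    · intro y hy
      have h1 := mem_ball_zero_iff.1 hy
      have h2 := PiLp.norm_apply_le y 0
      rw [Real.norm_eq_abs] at h2
      have h3 := hf12 y
      rw [abs_mul, abs_mul, abs_of_pos (lt_of_lt_of_le hf1 h3.1)]
      have h4 : |y 0| * |y 0| ≤ 1 := by nlinarith [abs_nonneg (y 0)]
      have h5 : 0 ≤ |y 0| * |y 0| := by positivity
      nlinarith [h3.1, h3.2]
    · intro y _
      have := lt_of_lt_of_le hf1 (hf12 y).1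
      have h5 : 0 ≤ y 0 * y 0 := mul_self_nonneg _
      positivity
    · intro y _ hy0
      have := lt_of_lt_of_le hf1 (hf12 y).1
      have h6 : 0 < y 0 := by linarith
      positivity
  · have m00 := mom_psi f hpsi 0 0 (by decide)
    have m11 := mom_psi f hpsi 1 1 (by decide)
    have m01 := mom_psi f hpsi 0 1 (by decide)
    have m10 := mom_psi f hpsi 1 0 (by decide)
    rw [cross_zero f hfi 0 1 (by decide)] at m01
    rw [cross_zero f hfi 1 0 (by decide)] at m10
    rw [← diag_eq f hfi] at m11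
    have hI : Complex.I * Complex.I = -1 := Complex.I_mul_I
    have hP : ∀ u : S, nuP u = (1 / 2 : ℂ) * (mom 0 u - Complex.I * mom 1 u) := fun u => rfl
    have hM : ∀ u : S, nuM u = (1 / 2 : ℂ) * (mom 0 u + Complex.I * mom 1 u) := fun u => rfl
    have sP : ∀ j, mom j psiP = mom j (psi 0) + Complex.I * mom j (psi 1) := by
      intro j
      unfold psiP
      rw [map_add, map_smul, smul_eq_mul]
    have sM : ∀ j, mom j psiM = mom j (psi 0) - Complex.I * mom j (psi 1) := by
      intro j
      unfold psiM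
      rw [map_sub, map_smul, smul_eq_mul]
    simp only [hP, hM, sP, sM, m00, m11, m01, m10]
    simp only [Complex.ofReal_zero, mul_zero, add_zero, zero_add, sub_zero, zero_sub]
    refine ⟨?_, ?_, ?_, ?_⟩ <;> ring_nf <;> simp [Complex.I_sq] <;> ring

/-- `nuP (T 0 Q psiM) = ½ ∫_B |zp|⁴ f² ≠ 0` -/
theorem nu_Q_ne : nuP (T 0 Q psiM) ≠ 0 := by
  have hP : ∀ u : S, nuP u = (1 / 2 : ℂ) * (mom 0 u - Complex.I * mom 1 u) := fun u => rfl
  have hpsiM : ∀ y : E3, ‖y‖ < 1 → ev psiM y = (f y : ℂ) * zm y := by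
    intro y hy
    unfold psiM
    rw [ev_sub, ev_smul, psi_in f hpsi 0 (by decide) y hy, psi_in f hpsi 1 (by decide) y hy]
    unfold zm
    ring
  have key : ∀ j : Fin 3, mom j (T 0 Q psiM) =
      ∫ y in Metric.ball (0 : E3) 1, zp y ^ 2 * ((f y : ℂ) * zm y) * ((f y : ℂ) * (y j : ℂ)) := by
    intro j
    rw [mom_T j 0 mo_im0 _ mo_pot_Q, ← integral_indicator measurableSet_ball]
    congr 1
    funext z
    by_cases hz : z ∈ Metric.ball (0 : E3) 1
    · rw [indicator_of_mem hz]
      have hz1 := mem_ball_zero_iff.1 hz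
      rw [hpsi j z hz1, hpsiM z hz1]
      unfold Q
      rw [if_pos hz1]
    · rw [indicator_of_notMem hz]
      unfold Q
      rw [if_neg (fun h => hz (mem_ball_zero_iff.2 h))]
      simp
  have hzpm : Measurable zp := by unfold zp; fun_prop
  have hzmm : Measurable zm := by unfold zm; fun_prop
  have hint : ∀ j : Fin 3, IntegrableOn (fun y : E3 => zp y ^ 2 * ((f y : ℂ) * zm y) *
      ((f y : ℂ) * (y j : ℂ))) (Metric.ball (0 : E3) 1) volume := by
    intro j
    refine Measure.integrableOn_of_bounded (M := 2 ^ 2 * (f2 * 2) * (f2 * 1)) measure_ball_lt_top.ne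
      (Measurable.aestronglyMeasurable ?_) ?_
    · exact ((hzpm.pow_const 2).mul ((Complex.measurable_ofReal.comp hf).mul hzmm)).mul
        ((Complex.measurable_ofReal.comp hf).mul (by fun_prop))
    · refine (ae_restrict_iff' measurableSet_ball).2 (Filter.Eventually.of_forall fun y hy => ?_)
      have hy1 := mem_ball_zero_iff.1 hy
      have hf0 := lt_of_lt_of_le hf1 (hf12 y).1
      have a0 := PiLp.norm_apply_le y 0
      have a1 := PiLp.norm_apply_le y 1
      have aj := PiLp.norm_apply_le y j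
      have b1 : ‖zp y‖ ≤ 2 := by
        unfold zp
        refine (norm_add_le _ _).trans ?_
        rw [norm_mul, Complex.norm_I, one_mul, Complex.norm_real, Complex.norm_real]
        linarith
      have b2 : ‖zm y‖ ≤ 2 := by
        unfold zm
        refine (norm_sub_le _ _).trans ?_
        rw [norm_mul, Complex.norm_I, one_mul, Complex.norm_real, Complex.norm_real]
        linarith
      have b3 : ‖(f y : ℂ)‖ ≤ f2 := by
        rw [Complex.norm_real, Real.norm_eq_abs, abs_of_pos hf0]
        exact (hf12 y).2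
      have b4 : ‖(y j : ℂ)‖ ≤ 1 := by
        rw [Complex.norm_real]
        linarith
      have hf20 : 0 ≤ f2 := (norm_nonneg _).trans b3
      rw [norm_mul, norm_mul, norm_mul, norm_mul, norm_pow]
      gcongr
  rw [hP, key 0, key 1, ← integral_const_mul, ← integral_sub (hint 0) ((hint 1).const_mul _)]
  have e2 : ∀ y : E3, zp y ^ 2 * ((f y : ℂ) * zm y) * ((f y : ℂ) * (y 0 : ℂ)) -
      Complex.I * (zp y ^ 2 * ((f y : ℂ) * zm y) * ((f y : ℂ) * (y 1 : ℂ))) =
      (((f y) ^ 2 * ((y 0) ^ 2 + (y 1) ^ 2) ^ 2 : ℝ) : ℂ) := by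
    intro y
    unfold zp zm
    push_cast
    have hI := Complex.I_sq
    have hI3 : Complex.I ^ 3 = -Complex.I := by rw [pow_succ, hI]; ring
    have hI4 : Complex.I ^ 4 = 1 := by rw [show (4 : ℕ) = 2 + 2 from rfl, pow_add, hI]; norm_num
    ring_nf
    rw [hI, hI4]
    ring
  simp only [e2]
  rw [integral_complex_ofReal]
  have hpos : 0 < ∫ y in Metric.ball (0 : E3) 1, (f y) ^ 2 * ((y 0) ^ 2 + (y 1) ^ 2) ^ 2 := by
    apply pos_ball _ (by fun_prop) (f2 ^ 2 * 2 ^ 2)
    · intro y hy
      have hy1 := mem_ball_zero_iff.1 hy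
      have hf0 := lt_of_lt_of_le hf1 (hf12 y).1
      have a0 := PiLp.norm_apply_le y 0
      have a1 := PiLp.norm_apply_le y 1
      rw [Real.norm_eq_abs] at a0 a1
      rw [abs_of_nonneg (by positivity)]
      have c0 : (y 0) ^ 2 ≤ 1 := by rw [← sq_abs]; nlinarith [abs_nonneg (y 0)]
      have c1 : (y 1) ^ 2 ≤ 1 := by rw [← sq_abs]; nlinarith [abs_nonneg (y 1)]
      have := (hf12 y).2
      gcongr
      linarith
    · intro y _
      positivity
    · intro y _ hy0
      have := lt_of_lt_of_le hf1 (hf12 y).1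
      have h6 : 0 < y 0 := by linarith
      positivity
  have : ((∫ y in Metric.ball (0 : E3) 1, (f y) ^ 2 * ((y 0) ^ 2 + (y 1) ^ 2) ^ 2 : ℝ) : ℂ) ≠ 0 := by
    exact_mod_cast hpos.ne'
  intro h
  rcases mul_eq_zero.1 h with h | h
  · norm_num at h
  · exact this h

end

end Pool.Agent.Helper96.CE
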