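import Pool.Agent.Helper16.CE.Top

/-! MP_95af1f_mp, part TB1: bounds for the operators `T k V`. -/

set_option autoImplicit false

namespace Pool.Agent.Helper96.CE
open MeasureTheory Pool.Agent.Helper16.CE Pool.Agent.Helper78.CE
open scoped ENNReal

theorem pot_add {V W : E3 → ℂ} (hV : Pot V) (hW : Pot W) : Pot (fun x => V x + W x) where
  meas := hV.meas.add hW.meas
  bdd := by
    obtain ⟨C, hC⟩ := hV.bdd
    obtain ⟨D, hD⟩ := hW.bdd
    exact ⟨C + D, fun x => (norm_add_le _ _).trans (add_le_add (hC x) (hD x))⟩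
  int := hV.int.add hW.int
  neg x := by rw [hV.neg, hW.neg]
  refl x := by rw [hV.refl, hW.refl]

theorem pot_smul {V : E3 → ℂ} (c : ℂ) (hV : Pot V) : Pot (fun x => c * V x) where
  meas := hV.meas.const_mul c
  bdd := by
    obtain ⟨C, hC⟩ := hV.bdd
    refine ⟨‖c‖ * C, fun x => ?_⟩
    rw [norm_mul]
    exact mul_le_mul_of_nonneg_left (hC x) (norm_nonneg _)
  int := hV.int.const_mul c
  neg x := by rw [hV.neg]
  refl x := by rw [hV.refl]

theorem ker_ev (k : ℂ) (hk : 0 ≤ k.im) {V : E3 → ℂ} (hV : Pot V) (u : S) (x : E3) :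
    Integrable (fun y => gk k ‖x - y‖ * (V y * ev u y)) volume := by
  obtain ⟨M, hM⟩ := hV.bdd
  exact (ker_int k hk (fun y => V y * ev u y) (hV.mul_ev u).1 (‖u‖ * M)
      (fun y => ((hV.mul_ev u).2.2 y).trans
        (mul_le_mul_of_nonneg_left (hM y) (norm_nonneg _))) (hV.mul_ev u).2.1 x).1

theorem int_V_u_le {V : E3 → ℂ} (hV : Pot V) (u : S) :
    ∫ y, ‖V y * ev u y‖ ≤ ‖u‖ * ∫ y, ‖V y‖ := by
  rw [← integral_const_mul]
  exact integral_mono_of_nonneg (Filter.Eventually.of_forall fun _ => norm_nonneg _)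
    (hV.int.norm.const_mul _) (Filter.Eventually.of_forall (hV.mul_ev u).2.2)

theorem T_add (k : ℂ) (hk : 0 ≤ k.im) (V W : E3 → ℂ) (hV : Pot V) (hW : Pot W) :
    T k (fun x => V x + W x) = T k V + T k W := by
  ext1 u
  apply ev_ext
  intro x
  rw [T_spec k hk _ (pot_add hV hW)]
  show _ = ev (T k V u + T k W u) x
  rw [ev_add, T_spec k hk V hV, T_spec k hk W hW, ← integral_add (ker_ev k hk hV u x) (ker_ev k hk hW u x)]
  congr 1
  funext y
  ring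

theorem T_smul (k : ℂ) (hk : 0 ≤ k.im) (c : ℂ) (V : E3 → ℂ) (hV : Pot V) :
    T k (fun x => c * V x) = c • T k V := by
  ext1 u
  apply ev_ext
  intro x
  rw [T_spec k hk _ (pot_smul c hV)]
  show _ = ev (c • T k V u) x
  rw [ev_smul, T_spec k hk V hV, ← integral_const_mul]
  congr 1
  funext y
  ring

theorem T_norm (V : E3 → ℂ) (hV : Pot V) :
    ∃ C : ℝ, 0 < C ∧ ∀ k : ℂ, 0 ≤ k.im → ‖T k V‖ ≤ C := by
  obtain ⟨M, hM⟩ := hV.bdd
  have hM0 : 0 ≤ M := (norm_nonneg _).trans (hM 0)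
  have hI0 : 0 ≤ ∫ y, ‖V y‖ := integral_nonneg (fun _ => norm_nonneg _)
  have hc : 0 ≤ cst M (∫ y, ‖V y‖) := by unfold cst; positivity
  refine ⟨cst M (∫ y, ‖V y‖) + 1, by linarith, fun k hk => ?_⟩
  refine (opNorm_le_ev _ (cst M (∫ y, ‖V y‖)) hc fun u x => ?_).trans (by linarith)
  rw [T_spec k hk V hV]
  refine ((ker_int k hk (fun y => V y * ev u y) (hV.mul_ev u).1 (‖u‖ * M)
      (fun y => ((hV.mul_ev u).2.2 y).trans
        (mul_le_mul_of_nonneg_left (hM y) (norm_nonneg _))) (hV.mul_ev u).2.1 x).2 1 one_pos).trans ?_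
  have hp : 0 ≤ (4 * Real.pi)⁻¹ := by positivity
  calc (4 * Real.pi)⁻¹ * (2 * Real.pi * 1 ^ 2 * (‖u‖ * M) + (∫ y, ‖V y * ev u y‖) / 1)
      ≤ (4 * Real.pi)⁻¹ * (2 * Real.pi * 1 ^ 2 * (‖u‖ * M) + (‖u‖ * ∫ y, ‖V y‖) / 1) := by
        gcongr
        exact int_V_u_le hV u
    _ = cst M (∫ y, ‖V y‖) * ‖u‖ := by unfold cst; ring

/-- symmetrisation -/
theorem symm_int (K : ℝ → ℂ) {V : E3 → ℂ} (hV : Pot V) (u : S) (x : E3)
    (hi : Integrable (fun y => K ‖x - y‖ * (V y * ev u y)) volume) :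
    ∫ y, K ‖x - y‖ * (V y * ev u y) =
      (1 / 2) * ∫ y, (K ‖x - y‖ - K ‖x + y‖) * (V y * ev u y) := by
  have h1 : ∀ y, K ‖x - -y‖ * (V (-y) * ev u (-y)) = -(K ‖x + y‖ * (V y * ev u y)) := by
    intro y
    rw [hV.neg, (cls_ev u).neg, sub_neg_eq_add]
    ring
  have h2 := integral_neg_E3 (fun y => K ‖x - y‖ * (V y * ev u y))
  simp only [h1] at h2
  rw [integral_neg] at h2
  have h3 : Integrable (fun y => K ‖x + y‖ * (V y * ev u y)) volume := by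
    have := hi.comp_neg
    simp only [h1] at this
    exact (integrable_neg_iff.1 this)
  have h4 : ∫ y, (K ‖x - y‖ - K ‖x + y‖) * (V y * ev u y) =
      (∫ y, K ‖x - y‖ * (V y * ev u y)) - ∫ y, K ‖x + y‖ * (V y * ev u y) := by
    rw [← integral_sub hi h3]
    congr 1
    funext y
    ring
  rw [h4]
  linear_combination (-1 / 2) * h2

theorem ae_ne (x : E3) : ∀ᵐ y ∂(volume : Measure E3), y ≠ x := by
  rw [ae_iff]
  have : {y : E3 | ¬ y ≠ x} = {x} := by ext y; simp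
  rw [this]
  exact measure_singleton x

theorem abs_norm_diff (x y : E3) : |‖x - y‖ - ‖x + y‖| ≤ 2 * ‖y‖ := by
  have h := abs_norm_sub_norm_le (x - y) (x + y)
  rw [show x - y - (x + y) = -((2 : ℝ) • y) by rw [two_smul]; abel, norm_neg, norm_smul] at h
  simpa using h

theorem symm_bound {V : E3 → ℂ} (hV : Pot V) (u : S) (F : E3 → ℂ) (c : ℝ)
    (hF : ∀ᵐ y ∂(volume : Measure E3), ‖F y * (V y * ev u y)‖ ≤ c * ‖V y * ev u y‖) (hc : 0 ≤ c) :
    ‖(1 / 2 : ℂ) * ∫ y, F y * (V y * ev u y)‖ ≤ 1 / 2 * (c * (‖u‖ * ∫ y, ‖V y‖)) := by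
  rw [norm_mul]
  have h12 : ‖(1 / 2 : ℂ)‖ = 1 / 2 := by norm_num
  rw [h12]
  apply mul_le_mul_of_nonneg_left _ (by norm_num)
  have h1 := norm_integral_le_of_norm_le ((hV.mul_ev u).2.1.norm.const_mul c) hF
  refine h1.trans ?_
  rw [integral_const_mul]
  exact mul_le_mul_of_nonneg_left (int_V_u_le hV u) hc

theorem T_sub_zero (V : E3 → ℂ) (hV : Pot V) (hV1 : ∀ x, 1 ≤ ‖x‖ → V x = 0) :
    ∃ C : ℝ, 0 < C ∧ ∀ k : ℂ, 0 ≤ k.im → ‖T k V - T 0 V‖ ≤ C * ‖k‖ ^ 2 := by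
  have hI0 : 0 ≤ ∫ y, ‖V y‖ := integral_nonneg (fun _ => norm_nonneg _)
  refine ⟨1 / 2 * (1 / (8 * Real.pi) * 2 * ∫ y, ‖V y‖) + 1, by positivity, fun k hk => ?_⟩
  have h00 : (0 : ℝ) ≤ (0 : ℂ).im := by simp
  apply opNorm_le_ev _ _ (by positivity)
  intro u x
  show ‖ev (T k V u - T 0 V u) x‖ ≤ _
  rw [ev_sub, T_spec k hk V hV, T_spec 0 h00 V hV, ← integral_sub (ker_ev k hk hV u x)
    (ker_ev 0 h00 hV u x)]
  have e1 : ∀ y, gk k ‖x - y‖ * (V y * ev u y) - gk 0 ‖x - y‖ * (V y * ev u y) =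
      (fun r => gk k r - gk 0 r) ‖x - y‖ * (V y * ev u y) := by intro y; ring
  have hint : Integrable (fun y => (fun r => gk k r - gk 0 r) ‖x - y‖ * (V y * ev u y)) volume := by
    have := (ker_ev k hk hV u x).sub (ker_ev 0 h00 hV u x)
    refine this.congr (Filter.Eventually.of_forall fun y => ?_)
    exact e1 y
  simp only [e1]
  have := symm_int (fun r => gk k r - gk 0 r) hV u x hint
  rw [this]
  refine (symm_bound hV u _ (‖k‖ ^ 2 / (8 * Real.pi) * 2) ?_ (by positivity)).trans ?_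
  · filter_upwards [ae_ne x, ae_ne (-x)] with y hy1 hy2
    by_cases hy : 1 ≤ ‖y‖
    · rw [hV1 y hy]; simp
    · rw [norm_mul]
      apply mul_le_mul_of_nonneg_right _ (norm_nonneg _)
      have ha : 0 < ‖x - y‖ := norm_pos_iff.2 (fun h => hy1 (sub_eq_zero.1 h).symm)
      have hb : 0 < ‖x + y‖ := norm_pos_iff.2 (fun h => hy2 (by rw [← sub_eq_zero]; rw [← h]; abel))
      refine (gk_sub_zero k hk _ _ ha hb).trans ?_
      apply mul_le_mul_of_nonneg_left _ (by positivity)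
      have := abs_norm_diff x y
      linarith [not_le.1 hy]
  · have hn := norm_nonneg u
    have : 1 / 2 * (‖k‖ ^ 2 / (8 * Real.pi) * 2 * (‖u‖ * ∫ y, ‖V y‖)) =
        1 / 2 * (1 / (8 * Real.pi) * 2 * ∫ y, ‖V y‖) * ‖k‖ ^ 2 * ‖u‖ := by ring
    rw [this, add_mul, add_mul]
    have : 0 ≤ 1 * ‖k‖ ^ 2 * ‖u‖ := by positivity
    linarith

theorem T_far (V : E3 → ℂ) (hV : Pot V) (hV1 : ∀ x, 1 ≤ ‖x‖ → V x = 0) :
    ∃ C : ℝ, 0 < C ∧ ∀ k : ℂ, 0 ≤ k.im → ∀ (u : S) (x : E3), 2 ≤ ‖x‖ →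
      ‖ev (T k V u) x‖ ≤ C * (‖k‖ / ‖x‖ + 1 / ‖x‖ ^ 2) * ‖u‖ := by
  have hI0 : 0 ≤ ∫ y, ‖V y‖ := integral_nonneg (fun _ => norm_nonneg _)
  refine ⟨(∫ y, ‖V y‖) / Real.pi + 1, by positivity, fun k hk u x hx => ?_⟩
  have hx0 : 0 < ‖x‖ := by linarith
  rw [T_spec k hk V hV, symm_int (gk k) hV u x (ker_ev k hk hV u x)]
  refine (symm_bound hV u _ ((‖k‖ / (‖x‖ / 2) + 1 / (‖x‖ / 2) ^ 2) / (4 * Real.pi) * 2) ?_
    (by positivity)).trans ?_
  · refine Filter.Eventually.of_forall fun y => ?_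
    by_cases hy : 1 ≤ ‖y‖
    · rw [hV1 y hy]; simp
    · rw [norm_mul]
      apply mul_le_mul_of_nonneg_right _ (norm_nonneg _)
      have hy1 := not_le.1 hy
      have ha : ‖x‖ / 2 ≤ ‖x - y‖ := by
        have := norm_sub_norm_le x y
        linarith
      have hb : ‖x‖ / 2 ≤ ‖x + y‖ := by
        have := norm_sub_norm_le x (-y)
        rw [norm_neg, sub_neg_eq_add] at this
        linarith
      refine (gk_sub k hk (‖x‖ / 2) _ _ (by positivity) ha hb).trans ?_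
      apply mul_le_mul_of_nonneg_left _ (by positivity)
      have := abs_norm_diff x y
      linarith
  · have hn := norm_nonneg u
    have hkn := norm_nonneg k
    have e2 : 1 / 2 * ((‖k‖ / (‖x‖ / 2) + 1 / (‖x‖ / 2) ^ 2) / (4 * Real.pi) * 2 *
        (‖u‖ * ∫ y, ‖V y‖)) = (∫ y, ‖V y‖) / Real.pi * (‖k‖ / (2 * ‖x‖) + 1 / ‖x‖ ^ 2) * ‖u‖ := by
      have := Real.pi_pos
      field_simp
      ring
    rw [e2]
    have h3 : ‖k‖ / (2 * ‖x‖) + 1 / ‖x‖ ^ 2 ≤ ‖k‖ / ‖x‖ + 1 / ‖x‖ ^ 2 := by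
      have : ‖k‖ / (2 * ‖x‖) ≤ ‖k‖ / ‖x‖ := by
        apply div_le_div_of_nonneg_left hkn hx0
        linarith
      linarith
    have h4 : 0 ≤ (∫ y, ‖V y‖) / Real.pi := by positivity
    have h5 : 0 ≤ ‖k‖ / (2 * ‖x‖) + 1 / ‖x‖ ^ 2 := by positivity
    apply mul_le_mul_of_nonneg_right _ hn
    exact mul_le_mul (by linarith) h3 h5 (by positivity)

end Pool.Agent.Helper96.CE
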