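import Pool.Agent.Helper16.CE.Defs

/-! MP_95af1f_mp, parts K1 and Rad. -/

set_option autoImplicit false

namespace Pool.Agent.Helper96.CE
open MeasureTheory Pool.Agent.Helper16.CE Set Filter
open scoped ENNReal

theorem finrank_E3 : Module.finrank ℝ E3 = 3 := by simp

theorem vol_ball : (volume : Measure E3).real (Metric.ball 0 1) = Real.pi * 4 / 3 := by
  rw [Measure.real, EuclideanSpace.volume_ball_fin_three]
  rw [ENNReal.ofReal_one, one_pow, one_mul, ENNReal.toReal_ofReal (by positivity)]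

/-- radial integration in `ℝ³` -/
theorem radial3 {F : Type*} [NormedAddCommGroup F] [NormedSpace ℝ F] (f : ℝ → F) :
    ∫ x : E3, f ‖x‖ = (4 * Real.pi) • ∫ r in Ioi (0 : ℝ), (r ^ 2) • f r := by
  rw [integral_fun_norm_addHaar, finrank_E3, vol_ball, ← Nat.cast_smul_eq_nsmul ℝ, smul_smul]
  congr 1
  push_cast
  ring

theorem radial3_int {F : Type*} [NormedAddCommGroup F] [NormedSpace ℝ F] {f : ℝ → F} :
    Integrable (fun x : E3 => f ‖x‖) volume ↔ IntegrableOn (fun r => (r ^ 2) • f r) (Ioi 0) := by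
  have := integrable_fun_norm_addHaar (E := E3) volume (f := f)
  rw [finrank_E3] at this
  exact this

/-- the truncated kernel -/
noncomputable def trk (s : ℕ) (R r : ℝ) : ℝ := if r < R then 1 / r ^ s else 0

theorem trk_nonneg {s : ℕ} {R r : ℝ} (hr : 0 ≤ r) : 0 ≤ trk s R r := by
  unfold trk
  split_ifs
  · positivity
  · exact le_rfl

theorem trk_smul (s : ℕ) (hs : s ≤ 2) (R : ℝ) : ∀ r ∈ Ioi (0 : ℝ), r ^ 2 • trk s R r =
    (Iio R).indicator (fun r => r ^ (2 - s)) r := by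
  intro r hr
  have hr0 : (0 : ℝ) < r := hr
  unfold trk Set.indicator
  simp only [mem_Iio]
  split_ifs with h
  · rw [smul_eq_mul, mul_one_div, pow_sub₀ r hr0.ne' hs, div_eq_mul_inv]
  · simp

theorem trk_int (s : ℕ) (hs : s ≤ 2) {R : ℝ} (hR : 0 < R) :
    Integrable (fun x : E3 => trk s R ‖x‖) volume ∧
    ∫ x : E3, trk s R ‖x‖ = 4 * Real.pi * (R ^ (3 - s) / (3 - s : ℕ)) := by
  have hIoo : Ioi (0 : ℝ) ∩ Iio R = Ioo 0 R := rfl
  constructor
  · rw [radial3_int (f := trk s R)]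
    refine IntegrableOn.congr_fun ?_ (fun r hr => (trk_smul s hs R r hr).symm) measurableSet_Ioi
    rw [integrableOn_indicator_iff measurableSet_Iio, inter_comm, hIoo]
    refine IntegrableOn.mono_set ?_ Ioo_subset_Icc_self
    exact (continuous_pow _).continuousOn.integrableOn_Icc
  · rw [radial3 (trk s R), setIntegral_congr_fun measurableSet_Ioi (trk_smul s hs R),
      setIntegral_indicator measurableSet_Iio, hIoo, smul_eq_mul]
    congr 1
    rw [← integral_Ioc_eq_integral_Ioo, ← intervalIntegral.integral_of_le hR.le, integral_pow]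
    have : 2 - s + 1 = 3 - s := by omega
    rw [this]
    have h2 : 3 - s ≠ 0 := by omega
    rw [zero_pow h2, sub_zero]
    congr 1
    rw [← this]
    push_cast
    ring

theorem sing_gen (s : ℕ) (hs : s ≤ 2) (g : E3 → ℂ) (hm : Measurable g) (M : ℝ)
    (hM : ∀ y, ‖g y‖ ≤ M) (hi : Integrable g volume) (x : E3) :
    Integrable (fun y => ‖g y‖ / ‖x - y‖ ^ s) volume ∧
    ∀ R : ℝ, 0 < R → ∫ y, ‖g y‖ / ‖x - y‖ ^ s ≤
      4 * Real.pi * (R ^ (3 - s) / (3 - s : ℕ)) * M + (∫ y, ‖g y‖) / R ^ s := by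
  have key : ∀ R : ℝ, 0 < R → ∀ y, ‖g y‖ / ‖x - y‖ ^ s ≤ M * trk s R ‖x - y‖ + ‖g y‖ / R ^ s := by
    intro R hR y
    have h0 := norm_nonneg (x - y)
    unfold trk
    split_ifs with h
    · have h1 : ‖g y‖ / ‖x - y‖ ^ s ≤ M * (1 / ‖x - y‖ ^ s) := by
        rw [mul_one_div]
        exact div_le_div_of_nonneg_right (hM y) (by positivity)
      have : 0 ≤ ‖g y‖ / R ^ s := by positivity
      linarith
    · rw [mul_zero, zero_add]
      apply div_le_div_of_nonneg_left (norm_nonneg _) (by positivity)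
      exact pow_le_pow_left₀ hR.le (not_lt.1 h) s
  have hT : ∀ R : ℝ, 0 < R → Integrable (fun y : E3 => trk s R ‖x - y‖) volume := fun R hR =>
    (trk_int s hs hR).1.comp_sub_left x
  have hint : Integrable (fun y => ‖g y‖ / ‖x - y‖ ^ s) volume := by
    refine (((hT 1 one_pos).const_mul M).add (hi.norm.div_const (1 ^ s))).mono' ?_
      (Eventually.of_forall fun y => ?_)
    · apply Measurable.aestronglyMeasurable
      fun_prop
    · rw [Real.norm_eq_abs, abs_of_nonneg (by positivity)]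
      exact key 1 one_pos y
  refine ⟨hint, fun R hR => ?_⟩
  have h1 := integral_mono hint (((hT R hR).const_mul M).add (hi.norm.div_const (R ^ s))) (key R hR)
  refine h1.trans (le_of_eq ?_)
  have h2 : ∫ y, trk s R ‖x - y‖ = ∫ y : E3, trk s R ‖y‖ :=
    integral_sub_left_eq_self (fun y : E3 => trk s R ‖y‖) volume x
  show ∫ y, (M * trk s R ‖x - y‖ + ‖g y‖ / R ^ s) = _
  rw [integral_add ((hT R hR).const_mul M) (hi.norm.div_const (R ^ s)), integral_const_mul,
    integral_div, h2, (trk_int s hs hR).2]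
  ring

/-- Part K1 -/
theorem sing_one (g : E3 → ℂ) (hm : Measurable g) (M : ℝ) (hM : ∀ y, ‖g y‖ ≤ M)
    (hi : Integrable g volume) (x : E3) :
    Integrable (fun y => ‖g y‖ / ‖x - y‖) volume ∧
    ∀ R : ℝ, 0 < R → ∫ y, ‖g y‖ / ‖x - y‖ ≤ 2 * Real.pi * R ^ 2 * M + (∫ y, ‖g y‖) / R := by
  obtain ⟨h1, h2⟩ := sing_gen 1 (by norm_num) g hm M hM hi x
  simp only [pow_one] at h1 h2
  refine ⟨h1, fun R hR => (h2 R hR).trans (le_of_eq ?_)⟩
  show 4 * Real.pi * (R ^ 2 / ((2 : ℕ) : ℝ)) * M + (∫ y, ‖g y‖) / R = _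
  push_cast
  ring

/-- Part K1 -/
theorem sing_two (g : E3 → ℂ) (hm : Measurable g) (M : ℝ) (hM : ∀ y, ‖g y‖ ≤ M)
    (hi : Integrable g volume) (x : E3) :
    Integrable (fun y => ‖g y‖ / ‖x - y‖ ^ 2) volume ∧
    ∀ R : ℝ, 0 < R → ∫ y, ‖g y‖ / ‖x - y‖ ^ 2 ≤ 4 * Real.pi * R * M + (∫ y, ‖g y‖) / R ^ 2 := by
  obtain ⟨h1, h2⟩ := sing_gen 2 le_rfl g hm M hM hi x
  refine ⟨h1, fun R hR => (h2 R hR).trans (le_of_eq ?_)⟩
  norm_num

/-- Part Rad: angular integration -/
theorem rad : ∃ c4 : ℝ, 0 < c4 ∧ ∀ F : ℝ → ℂ,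
    ∫ z : E3, F ‖z‖ * (((((z 0) ^ 2 + (z 1) ^ 2) / ‖z‖ ^ 2) ^ 2 : ℝ) : ℂ) =
      c4 * ∫ r in Set.Ioi (0 : ℝ), F r * ((r ^ 2 : ℝ) : ℂ) := by
  set q : E3 → ℝ := fun z => (((z 0) ^ 2 + (z 1) ^ 2) / ‖z‖ ^ 2) ^ 2 with hq
  set σ : Measure (Metric.sphere (0 : E3) 1) := (volume : Measure E3).toSphere with hσ
  set c : ℝ := ∫ w : Metric.sphere (0 : E3) 1, q w ∂σ with hc
  have key : ∀ F : ℝ → ℂ, ∫ z : E3, F ‖z‖ * ((q z : ℝ) : ℂ) =
      c * ∫ r in Set.Ioi (0 : ℝ), F r * ((r ^ 2 : ℝ) : ℂ) := by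
    intro F
    have e1 : ∫ z : E3, F ‖z‖ * ((q z : ℝ) : ℂ) =
        ∫ z : ({(0 : E3)}ᶜ : Set E3), F ‖z.1‖ * ((q z.1 : ℝ) : ℂ) ∂((volume : Measure E3).comap (↑)) := by
      rw [integral_subtype_comap (measurableSet_singleton _).compl
        fun z : E3 => F ‖z‖ * ((q z : ℝ) : ℂ), restrict_compl_singleton]
    have hfr : Module.finrank ℝ E3 - 1 = 2 := by simp
    have e2 : ∫ z : ({(0 : E3)}ᶜ : Set E3), F ‖z.1‖ * ((q z.1 : ℝ) : ℂ)
        ∂((volume : Measure E3).comap (↑)) =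
        ∫ p : Metric.sphere (0 : E3) 1 × Ioi (0 : ℝ), ((q p.1 : ℝ) : ℂ) * F p.2
          ∂(σ.prod (Measure.volumeIoiPow (Module.finrank ℝ E3 - 1))) := by
      rw [← (volume : Measure E3).measurePreserving_homeomorphUnitSphereProd.integral_comp
        (Homeomorph.measurableEmbedding _)]
      congr 1
      funext z
      have hz : (z : E3) ≠ 0 := z.2
      have hn : 0 < ‖(z : E3)‖ := norm_pos_iff.2 hz
      have h1 : ((homeomorphUnitSphereProd E3 z).2 : ℝ) = ‖(z : E3)‖ := by simp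
      have h2 : (((homeomorphUnitSphereProd E3 z).1 : Metric.sphere (0 : E3) 1) : E3) =
          ‖(z : E3)‖⁻¹ • (z : E3) := by simp
      rw [h1, h2, mul_comm]
      congr 2
      simp only [hq]
      rw [norm_smul, norm_inv, norm_norm, inv_mul_cancel₀ hn.ne']
      simp only [PiLp.smul_apply, smul_eq_mul]
      field_simp
    rw [e1, e2, integral_prod_mul (fun w : Metric.sphere (0 : E3) 1 => ((q w : ℝ) : ℂ))
      (fun r : Ioi (0 : ℝ) => F r), integral_complex_ofReal, hfr]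
    congr 1
    simp only [Measure.volumeIoiPow, ENNReal.ofReal]
    rw [integral_withDensity_eq_integral_smul
      (measurable_subtype_coe.pow_const _).real_toNNReal,
      integral_subtype_comap measurableSet_Ioi fun a ↦ Real.toNNReal (a ^ 2) • F a]
    apply setIntegral_congr_fun measurableSet_Ioi
    intro r hr
    show Real.toNNReal (r ^ 2) • F r = F r * ((r ^ 2 : ℝ) : ℂ)
    rw [NNReal.smul_def, Real.coe_toNNReal _ (by positivity), Complex.real_smul, mul_comm]
  refine ⟨c, ?_, key⟩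
  -- positivity
  have h1 := key (fun r => if r < 1 then 1 else 0)
  have h2 : ∫ r in Set.Ioi (0 : ℝ), (if r < 1 then (1 : ℂ) else 0) * ((r ^ 2 : ℝ) : ℂ) = 1 / 3 := by
    have e1 : ∀ r ∈ Ioi (0 : ℝ), (if r < 1 then (1 : ℂ) else 0) * ((r ^ 2 : ℝ) : ℂ) =
        (Iio (1 : ℝ)).indicator (fun r => ((r ^ 2 : ℝ) : ℂ)) r := by
      intro r _
      unfold Set.indicator
      simp only [mem_Iio]
      split_ifs <;> simp
    rw [setIntegral_congr_fun measurableSet_Ioi e1, setIntegral_indicator measurableSet_Iio,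
      show Ioi (0 : ℝ) ∩ Iio 1 = Ioo 0 1 from rfl, ← integral_Ioc_eq_integral_Ioo,
      ← intervalIntegral.integral_of_le zero_le_one, intervalIntegral.integral_ofReal, integral_pow]
    norm_num
  rw [h2] at h1
  have h3 : ∫ z : E3, (if ‖z‖ < 1 then (1 : ℂ) else 0) * ((q z : ℝ) : ℂ) =
      ((∫ z : E3, (if ‖z‖ < 1 then q z else 0) : ℝ) : ℂ) := by
    rw [← integral_complex_ofReal]
    congr 1
    funext z
    split_ifs <;> simp
  rw [h3] at h1
  have h4 : c = 3 * ∫ z : E3, (if ‖z‖ < 1 then q z else 0) := by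
    have : ((∫ z : E3, (if ‖z‖ < 1 then q z else 0) : ℝ) : ℂ) = ((c * (1 / 3) : ℝ) : ℂ) := by
      rw [h1]; push_cast; ring
    have := Complex.ofReal_injective this
    rw [this]
    ring
  rw [h4]
  apply mul_pos (by norm_num)
  have hqm : Measurable q := by fun_prop
  have hq0 : ∀ z, 0 ≤ q z := fun z => by positivity
  have hq1 : ∀ z, q z ≤ 1 := by
    intro z
    have h5 : (z 0) ^ 2 + (z 1) ^ 2 ≤ ‖z‖ ^ 2 := by
      rw [EuclideanSpace.norm_sq_eq, Fin.sum_univ_three]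
      simp only [Real.norm_eq_abs, sq_abs]
      nlinarith [sq_nonneg (z 2)]
    have h6 : ((z 0) ^ 2 + (z 1) ^ 2) / ‖z‖ ^ 2 ≤ 1 := div_le_one_of_le₀ h5 (by positivity)
    have h7 : 0 ≤ ((z 0) ^ 2 + (z 1) ^ 2) / ‖z‖ ^ 2 := by positivity
    show (((z 0) ^ 2 + (z 1) ^ 2) / ‖z‖ ^ 2) ^ 2 ≤ 1
    nlinarith
  have hint : Integrable (fun z : E3 => if ‖z‖ < 1 then q z else 0) volume := by
    have e5 : (fun z : E3 => if ‖z‖ < 1 then q z else 0) = (Metric.ball (0 : E3) 1).indicator q := by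
      funext z
      unfold Set.indicator
      simp only [mem_ball_zero_iff]
    rw [e5, integrable_indicator_iff measurableSet_ball]
    refine Measure.integrableOn_of_bounded (M := 1) ?_ hqm.aestronglyMeasurable
      (Eventually.of_forall fun z => ?_)
    · exact measure_ball_lt_top.ne
    · rw [Real.norm_eq_abs, abs_of_nonneg (hq0 z)]; exact hq1 z
  rw [integral_pos_iff_support_of_nonneg (fun z => by
    show (0 : ℝ) ≤ if ‖z‖ < 1 then q z else 0
    split_ifs
    · exact hq0 z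
    · exact le_rfl) hint]
  have hsub : Metric.ball (EuclideanSpace.single 0 (1 / 2) : E3) (1 / 4) ⊆
      Function.support (fun z : E3 => if ‖z‖ < 1 then q z else 0) := by
    intro z hz
    rw [Metric.mem_ball, dist_eq_norm] at hz
    have h5 : ‖(EuclideanSpace.single 0 (1 / 2) : E3)‖ = 1 / 2 := by
      rw [PiLp.norm_single]; norm_num
    have h6 : ‖z‖ < 1 := by
      have := norm_add_le (z - (EuclideanSpace.single 0 (1 / 2) : E3)) (EuclideanSpace.single 0 (1 / 2))
      rw [sub_add_cancel, h5] at this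
      linarith
    have h7 : |z 0 - 1 / 2| < 1 / 4 := by
      have := PiLp.norm_apply_le (z - (EuclideanSpace.single 0 (1 / 2) : E3)) 0
      have h8 : (z - (EuclideanSpace.single 0 (1 / 2) : E3)) 0 = z 0 - 1 / 2 := by simp
      rw [h8, Real.norm_eq_abs] at this
      linarith
    have h9 : 1 / 4 < z 0 := by
      have := (abs_lt.1 h7).1
      linarith
    have h10 : 0 < ‖z‖ := by
      rw [norm_pos_iff]
      rintro rfl
      simp at h9
      linarith
    rw [Function.mem_support, if_pos h6]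
    have : 0 < q z := by
      show 0 < (((z 0) ^ 2 + (z 1) ^ 2) / ‖z‖ ^ 2) ^ 2
      have : 0 < z 0 := by linarith
      positivity
    exact this.ne'
  exact lt_of_lt_of_le (Metric.measure_ball_pos _ _ (by norm_num)) (measure_mono hsub)

end Pool.Agent.Helper96.CE
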