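import Pool.Agent.Helper96.CE.F
import Pool.Agent.Helper96.CE.K1

/-! MP_95af1f_mp, part IN1: the Newtonian potential of `y_j 1_B`. -/

set_option autoImplicit false

namespace Pool.Agent.Helper96.CE
open MeasureTheory Pool.Agent.Helper16.CE Set Filter
open scoped ENNReal

theorem gk_zero (r : ℝ) : gk 0 r = ((1 / (4 * Real.pi * r) : ℝ) : ℂ) := by
  unfold gk
  simp

/-- the real kernel integrand -/
noncomputable def kj (x : E3) (j : Fin 3) (y : E3) : ℝ := y j / (4 * Real.pi * ‖x - y‖)

theorem kj_int (x : E3) (j : Fin 3) : IntegrableOn (kj x j) (Metric.ball 0 1) volume := by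
  have hb : ∀ y : E3, ‖(Metric.ball (0 : E3) 1).indicator (fun y : E3 => ((y j : ℝ) : ℂ)) y‖ ≤ 1 := by
    intro y
    by_cases hy : y ∈ Metric.ball (0 : E3) 1
    · rw [indicator_of_mem hy, Complex.norm_real]
      have h1 := PiLp.norm_apply_le y j
      have h2 := mem_ball_zero_iff.1 hy
      linarith
    · rw [indicator_of_notMem hy, norm_zero]
      norm_num
  have hm : Measurable ((Metric.ball (0 : E3) 1).indicator (fun y : E3 => ((y j : ℝ) : ℂ))) :=
    Measurable.indicator (by fun_prop) measurableSet_ball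
  have hi : Integrable ((Metric.ball (0 : E3) 1).indicator (fun y : E3 => ((y j : ℝ) : ℂ))) volume := by
    rw [integrable_indicator_iff measurableSet_ball]
    refine Measure.integrableOn_of_bounded (M := 1) measure_ball_lt_top.ne
      (Measurable.aestronglyMeasurable (by fun_prop)) ?_
    refine (ae_restrict_iff' measurableSet_ball).2 (Eventually.of_forall fun y hy => ?_)
    have := hb y
    rwa [indicator_of_mem hy] at this
  have h3 := (sing_one _ hm 1 hb hi x).1
  rw [← integrable_indicator_iff measurableSet_ball]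
  refine (h3.div_const (4 * Real.pi)).mono' ?_ (Eventually.of_forall fun y => ?_)
  · apply Measurable.aestronglyMeasurable
    apply Measurable.indicator _ measurableSet_ball
    unfold kj
    fun_prop
  · by_cases hy : y ∈ Metric.ball (0 : E3) 1
    · rw [indicator_of_mem hy, indicator_of_mem hy, Complex.norm_real]
      unfold kj
      rw [norm_div, Real.norm_eq_abs (4 * Real.pi * ‖x - y‖), abs_of_nonneg (by positivity), div_div,
        mul_comm ‖x - y‖]
    · rw [indicator_of_notMem hy, indicator_of_notMem hy, norm_zero, norm_zero]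
      simp

/-- the integral over a slice -/
theorem slice_disc (t z : ℝ) (hz : z ^ 2 < 1) :
    ∫ p : ℝ × ℝ, (if z ^ 2 + (p.1 ^ 2 + p.2 ^ 2) < 1 then
      z / (4 * Real.pi * √((t - z) ^ 2 + (p.1 ^ 2 + p.2 ^ 2))) else 0) =
      z / 2 * (√(1 + t ^ 2 - 2 * t * z) - |t - z|) := by
  rw [← integral_comp_polarCoord_symm]
  set ρ := √(1 - z ^ 2) with hρ
  have hρ0 : 0 < ρ := Real.sqrt_pos.2 (by linarith)
  have hρ2 : ρ ^ 2 = 1 - z ^ 2 := Real.sq_sqrt (by linarith)
  have h1 : ∀ p ∈ Ioi (0 : ℝ) ×ˢ Ioo (-Real.pi) Real.pi, p.1 • (if z ^ 2 + ((polarCoord.symm p).1 ^ 2 + (polarCoord.symm p).2 ^ 2) < 1 then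
      z / (4 * Real.pi * √((t - z) ^ 2 + ((polarCoord.symm p).1 ^ 2 + (polarCoord.symm p).2 ^ 2))) else 0) =
      ((Iio ρ).indicator (fun r => z / (4 * Real.pi) * (r / √((t - z) ^ 2 + r ^ 2))) p.1) * (1 : ℝ) := by
    rintro ⟨r, θ⟩ ⟨hr, -⟩
    have hr0 : (0 : ℝ) < r := hr
    have h2 : (polarCoord.symm (r, θ)).1 ^ 2 + (polarCoord.symm (r, θ)).2 ^ 2 = r ^ 2 := by
      rw [polarCoord_symm_apply]
      simp only
      have := Real.sin_sq_add_cos_sq θ
      linear_combination r ^ 2 * this
    rw [h2]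
    simp only [smul_eq_mul, mul_one]
    by_cases h : r < ρ
    · rw [indicator_of_mem (show r ∈ Iio ρ from h), if_pos (by nlinarith)]
      by_cases hs : √((t - z) ^ 2 + r ^ 2) = 0
      · rw [hs]; simp
      · field_simp
    · rw [indicator_of_notMem (show r ∉ Iio ρ from h), if_neg (by nlinarith), mul_zero]
  rw [polarCoord_target]
  rw [setIntegral_congr_fun (measurableSet_Ioi.prod measurableSet_Ioo) h1]
  rw [Measure.volume_eq_prod, setIntegral_prod_mul
    (fun r : ℝ => (Iio ρ).indicator (fun r => z / (4 * Real.pi) * (r / √((t - z) ^ 2 + r ^ 2))) r)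
    (fun _ => (1 : ℝ)), setIntegral_const, setIntegral_indicator measurableSet_Iio,
    show Ioi (0 : ℝ) ∩ Iio ρ = Ioo 0 ρ from rfl, integral_const_mul,
    ← integral_Ioc_eq_integral_Ioo, ← intervalIntegral.integral_of_le hρ0.le]
  have hv : (volume.real (Ioo (-Real.pi) Real.pi)) = 2 * Real.pi := by
    rw [Measure.real, Real.volume_Ioo, ENNReal.toReal_ofReal (by linarith [Real.pi_pos])]
    ring
  rw [hv]
  have hfi : IntervalIntegrable (fun r => r / √((t - z) ^ 2 + r ^ 2)) volume 0 ρ := by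
    rw [intervalIntegrable_iff]
    refine Measure.integrableOn_of_bounded (M := 1) (by simp)
      (Measurable.aestronglyMeasurable (by fun_prop)) (Eventually.of_forall fun r => ?_)
    rw [Real.norm_eq_abs, abs_div, abs_of_nonneg (Real.sqrt_nonneg _)]
    apply div_le_one_of_le₀ _ (Real.sqrt_nonneg _)
    apply Real.abs_le_sqrt
    nlinarith [sq_nonneg (t - z)]
  have hI : ∫ r in (0 : ℝ)..ρ, r / √((t - z) ^ 2 + r ^ 2) =
      √((t - z) ^ 2 + ρ ^ 2) - √((t - z) ^ 2 + 0 ^ 2) := by
    apply intervalIntegral.integral_eq_sub_of_hasDerivAt_of_le hρ0.le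
      (f := fun r => √((t - z) ^ 2 + r ^ 2)) _ _ hfi
    · apply Continuous.continuousOn
      fun_prop
    · intro r hr
      have hpos : 0 < (t - z) ^ 2 + r ^ 2 := by
        have := hr.1
        positivity
      have h2 : HasDerivAt (fun r : ℝ => (t - z) ^ 2 + r ^ 2) (2 * r) r := by
        have := (hasDerivAt_pow 2 r).const_add ((t - z) ^ 2)
        simpa using this
      have h3 := h2.sqrt hpos.ne'
      have hs : 0 < √((t - z) ^ 2 + r ^ 2) := Real.sqrt_pos.2 hpos
      convert! h3 using 1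
      field_simp
  rw [hI, hρ2, zero_pow (by norm_num), add_zero, Real.sqrt_sq_eq_abs,
    show (t - z) ^ 2 + (1 - z ^ 2) = 1 + t ^ 2 - 2 * t * z by ring]
  have := Real.pi_pos
  simp only [smul_eq_mul, mul_one]
  field_simp
  ring

theorem line_disc (t : ℝ) (ht : 0 < t) (ht1 : t < 1) :
    ∫ z in (-1 : ℝ)..1, z / 2 * (√(1 + t ^ 2 - 2 * t * z) - |t - z|) =
      t * (5 - 3 * t ^ 2) / 30 := by
  have c1 : Continuous (fun z : ℝ => z * √(1 + t ^ 2 - 2 * t * z)) := by fun_prop
  have c2 : Continuous (fun z : ℝ => z * |t - z|) := by fun_prop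
  have e1 : ∀ z : ℝ, z / 2 * (√(1 + t ^ 2 - 2 * t * z) - |t - z|) =
      (1 / 2) * (z * √(1 + t ^ 2 - 2 * t * z)) - (1 / 2) * (z * |t - z|) := by intro z; ring
  simp only [e1]
  rw [intervalIntegral.integral_sub ((c1.intervalIntegrable _ _).const_mul _)
    ((c2.intervalIntegrable _ _).const_mul _), intervalIntegral.integral_const_mul,
    intervalIntegral.integral_const_mul]
  have i1 : ∫ z in (-1 : ℝ)..1, z * √(1 + t ^ 2 - 2 * t * z) = -(2 / 3) * t + 2 / 15 * t ^ 3 := by
    set G : ℝ → ℝ := fun z => -((2 / 3) * (1 + t ^ 2) * √(1 + t ^ 2 - 2 * t * z) ^ 3 -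
      (2 / 5) * √(1 + t ^ 2 - 2 * t * z) ^ 5) / (4 * t ^ 2) with hG
    have h1 : ∫ z in (-1 : ℝ)..1, z * √(1 + t ^ 2 - 2 * t * z) = G 1 - G (-1) := by
      apply intervalIntegral.integral_eq_sub_of_hasDerivAt _ (c1.intervalIntegrable _ _)
      intro z hz
      rw [uIcc_of_le (by norm_num)] at hz
      have hpos : 0 < 1 + t ^ 2 - 2 * t * z := by nlinarith [hz.2, sq_nonneg (1 - t)]
      have hs : 0 < √(1 + t ^ 2 - 2 * t * z) := Real.sqrt_pos.2 hpos
      have hs2 : √(1 + t ^ 2 - 2 * t * z) ^ 2 = 1 + t ^ 2 - 2 * t * z := Real.sq_sqrt hpos.le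
      have h2 : HasDerivAt (fun z : ℝ => 1 + t ^ 2 - 2 * t * z) (-(2 * t)) z := by
        have := ((hasDerivAt_id z).const_mul (2 * t)).const_sub (1 + t ^ 2)
        simpa using this
      have h3 := h2.sqrt hpos.ne'
      have h4 := (((h3.pow 3).const_mul ((2 / 3) * (1 + t ^ 2))).sub
        ((h3.pow 5).const_mul (2 / 5))).neg.div_const (4 * t ^ 2)
      convert! h4 using 1
      set s := √(1 + t ^ 2 - 2 * t * z) with hsd
      have hz2 : z = (1 + t ^ 2 - s ^ 2) / (2 * t) := by rw [hs2]; field_simp; ring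
      rw [hz2]
      field_simp
      ring
    rw [h1, hG]
    have s1 : √(1 + t ^ 2 - 2 * t * 1) = 1 - t := by
      rw [show 1 + t ^ 2 - 2 * t * 1 = (1 - t) ^ 2 by ring]
      exact Real.sqrt_sq (by linarith)
    have s2 : √(1 + t ^ 2 - 2 * t * (-1)) = 1 + t := by
      rw [show 1 + t ^ 2 - 2 * t * (-1) = (1 + t) ^ 2 by ring]
      exact Real.sqrt_sq (by linarith)
    simp only [s1, s2]
    field_simp
    ring
  have i2 : ∫ z in (-1 : ℝ)..1, z * |t - z| = t ^ 3 / 3 - t := by
    rw [← intervalIntegral.integral_add_adjacent_intervals (b := t) (c2.intervalIntegrable _ _)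
      (c2.intervalIntegrable _ _)]
    have j1 : ∫ z in (-1 : ℝ)..t, z * |t - z| = ∫ z in (-1 : ℝ)..t, (t * z - z ^ 2) := by
      apply intervalIntegral.integral_congr
      intro z hz
      rw [uIcc_of_le (by linarith)] at hz
      simp only
      rw [abs_of_nonneg (by linarith [hz.2])]
      ring
    have j2 : ∫ z in t..(1 : ℝ), z * |t - z| = ∫ z in t..(1 : ℝ), (z ^ 2 - t * z) := by
      apply intervalIntegral.integral_congr
      intro z hz
      rw [uIcc_of_le (by linarith)] at hz
      simp only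
      rw [abs_of_nonpos (by linarith [hz.1])]
      ring
    have k1 : ∀ a b : ℝ, IntervalIntegrable (fun z : ℝ => t * z) volume a b := fun a b =>
      (Continuous.intervalIntegrable (by fun_prop) _ _)
    have k2 : ∀ a b : ℝ, IntervalIntegrable (fun z : ℝ => z ^ 2) volume a b := fun a b =>
      (Continuous.intervalIntegrable (by fun_prop) _ _)
    rw [j1, j2, intervalIntegral.integral_sub (k1 _ _) (k2 _ _),
      intervalIntegral.integral_sub (k2 _ _) (k1 _ _), intervalIntegral.integral_const_mul,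
      intervalIntegral.integral_const_mul, integral_id, integral_id, integral_pow, integral_pow]
    norm_num
    ring
  rw [i1, i2]
  ring

/-- the point `t e₀` -/
noncomputable def te (t : ℝ) : E3 := EuclideanSpace.single 0 t

theorem te_sub_norm (t : ℝ) (y : E3) : ‖te t - y‖ = √((t - y 0) ^ 2 + ((y 1) ^ 2 + (y 2) ^ 2)) := by
  rw [norm_E3]
  congr 1
  unfold te
  simp

theorem psi0 (t : ℝ) (ht : 0 < t) (ht1 : t < 1) :
    ∫ y in Metric.ball (0 : E3) 1, kj (te t) 0 y = t * (5 - 3 * t ^ 2) / 30 := by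
  set Φ : ℝ × (ℝ × ℝ) → ℝ := fun q => if q.1 ^ 2 + (q.2.1 ^ 2 + q.2.2 ^ 2) < 1 then
      q.1 / (4 * Real.pi * √((t - q.1) ^ 2 + (q.2.1 ^ 2 + q.2.2 ^ 2))) else 0 with hΦ
  have h1 : ∀ y : E3, (Metric.ball (0 : E3) 1).indicator (kj (te t) 0) y = Φ (e3 y) := by
    intro y
    have hiff : y ∈ Metric.ball (0 : E3) 1 ↔ (y 0) ^ 2 + ((y 1) ^ 2 + (y 2) ^ 2) < 1 := by
      rw [mem_ball_zero_iff, norm_E3, Real.sqrt_lt' one_pos, one_pow]
    rw [e3_apply]
    simp only [hΦ]
    by_cases hy : y ∈ Metric.ball (0 : E3) 1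
    · rw [indicator_of_mem hy, if_pos (hiff.1 hy)]
      unfold kj
      rw [te_sub_norm]
    · rw [indicator_of_notMem hy, if_neg (fun h => hy (hiff.2 h))]
  have hint : Integrable ((Metric.ball (0 : E3) 1).indicator (kj (te t) 0)) volume :=
    (integrable_indicator_iff measurableSet_ball).2 (kj_int _ _)
  have hΦi : Integrable Φ volume := by
    have h2 : (Metric.ball (0 : E3) 1).indicator (kj (te t) 0) = Φ ∘ e3 := funext h1
    rw [h2] at hint
    exact (e3_mp.integrable_comp_emb e3.measurableEmbedding).1 hint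
  rw [← integral_indicator measurableSet_ball]
  simp only [h1]
  rw [e3_mp.integral_comp' (g := Φ)]
  rw [Measure.volume_eq_prod] at hΦi ⊢
  rw [integral_prod Φ hΦi, ← line_disc t ht ht1, intervalIntegral.integral_of_le (by norm_num),
    integral_Ioc_eq_integral_Ioo, ← integral_indicator measurableSet_Ioo]
  congr 1
  funext z
  by_cases hz : z ∈ Ioo (-1 : ℝ) 1
  · rw [indicator_of_mem hz]
    have hz2 : z ^ 2 < 1 := by nlinarith [hz.1, hz.2]
    exact slice_disc t z hz2
  · rw [indicator_of_notMem hz]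
    have hz2 : 1 ≤ z ^ 2 := by
      by_contra hcon
      apply hz
      rw [not_le] at hcon
      exact abs_lt.1 ((sq_lt_one_iff_abs_lt_one z).1 hcon)
    have h3 : ∀ p : ℝ × ℝ, Φ (z, p) = 0 := by
      intro p
      simp only [hΦ]
      rw [if_neg]
      nlinarith [sq_nonneg p.1, sq_nonneg p.2]
    simp only [h3, integral_zero]

/-- the components orthogonal to `x` vanish -/
theorem psi_refl (x : E3) (i : Fin 3) (hx : x i = 0) :
    ∫ y in Metric.ball (0 : E3) 1, kj x i y = 0 := by
  have h1 : ∫ y in Metric.ball (0 : E3) 1, kj x i y = - ∫ y in Metric.ball (0 : E3) 1, kj x i y := by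
    rw [← integral_neg, ← integral_indicator measurableSet_ball, ← integral_indicator measurableSet_ball]
    rw [← (rf i).measurePreserving.integral_comp' (f := (rf i).toMeasurableEquiv)]
    congr 1
    funext y
    show (Metric.ball (0 : E3) 1).indicator (kj x i) (rf i y) =
      (Metric.ball (0 : E3) 1).indicator (fun y => - kj x i y) y
    have hb : rf i y ∈ Metric.ball (0 : E3) 1 ↔ y ∈ Metric.ball (0 : E3) 1 := by
      rw [mem_ball_zero_iff, mem_ball_zero_iff, (rf i).norm_map]
    have hrx : rf i x = x := by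
      ext k
      rw [rf_apply]
      split_ifs with h
      · rw [h, hx, neg_zero]
      · rfl
    by_cases hy : y ∈ Metric.ball (0 : E3) 1
    · rw [indicator_of_mem hy, indicator_of_mem (hb.2 hy)]
      unfold kj
      have h2 : ‖x - rf i y‖ = ‖x - y‖ := by
        conv_lhs => rw [← hrx]
        rw [← map_sub, (rf i).norm_map]
      rw [h2, rf_apply, if_pos rfl, neg_div]
    · rw [indicator_of_notMem hy, indicator_of_notMem (fun h => hy (hb.1 h))]
  linarith

theorem psi_real (x : E3) (hx : ‖x‖ < 1) (j : Fin 3) :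
    ∫ y in Metric.ball (0 : E3) 1, kj x j y = (5 - 3 * ‖x‖ ^ 2) / 30 * x j := by
  by_cases hx0 : x = 0
  · subst hx0
    rw [psi_refl 0 j (by simp)]
    simp
  have ht : 0 < ‖x‖ := norm_pos_iff.2 hx0
  set t := ‖x‖ with htd
  have hvn : ‖te t‖ = ‖x‖ := by
    unfold te
    rw [PiLp.norm_single, Real.norm_eq_abs, abs_of_pos ht]
  set L : E3 ≃ₗᵢ[ℝ] E3 := Submodule.reflection (ℝ ∙ (te t - x))ᗮ with hL
  have hLv : L (te t) = x := Submodule.reflection_sub hvn
  have hbas : ∀ y : E3, y = ∑ i : Fin 3, y i • (EuclideanSpace.single i (1 : ℝ) : E3) := by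
    intro y
    ext k
    simp [Fin.sum_univ_three]
    fin_cases k <;> simp
  have h1 : ∫ y in Metric.ball (0 : E3) 1, kj x j y =
      ∫ y in Metric.ball (0 : E3) 1, ∑ i : Fin 3, (L (EuclideanSpace.single i (1 : ℝ))) j *
        kj (te t) i y := by
    rw [← integral_indicator measurableSet_ball, ← integral_indicator measurableSet_ball]
    rw [← L.measurePreserving.integral_comp' (f := L.toMeasurableEquiv)]
    congr 1
    funext y
    show (Metric.ball (0 : E3) 1).indicator (kj x j) (L y) = _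
    have hb : L y ∈ Metric.ball (0 : E3) 1 ↔ y ∈ Metric.ball (0 : E3) 1 := by
      rw [mem_ball_zero_iff, mem_ball_zero_iff, L.norm_map]
    by_cases hy : y ∈ Metric.ball (0 : E3) 1
    · rw [indicator_of_mem hy, indicator_of_mem (hb.2 hy)]
      unfold kj
      have h2 : ‖x - L y‖ = ‖te t - y‖ := by
        conv_lhs => rw [← hLv]
        rw [← map_sub, L.norm_map]
      rw [h2]
      have h3 : (L y) j = ∑ i : Fin 3, (L (EuclideanSpace.single i (1 : ℝ))) j * y i := by
        conv_lhs => rw [hbas y]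
        rw [map_sum]
        simp only [map_smul]
        rw [show (∑ i : Fin 3, y i • L (EuclideanSpace.single i (1 : ℝ))) j =
          ∑ i : Fin 3, (y i • L (EuclideanSpace.single i (1 : ℝ))) j by simp]
        apply Finset.sum_congr rfl
        intro i _
        simp [mul_comm]
      rw [h3, Finset.sum_div]
      apply Finset.sum_congr rfl
      intro i _
      ring
    · rw [indicator_of_notMem hy, indicator_of_notMem (fun h => hy (hb.1 h))]
  rw [h1, integral_finsetSum _ (fun i _ => (kj_int (te t) i).const_mul _)]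
  simp only [integral_const_mul]
  rw [Fin.sum_univ_three, psi_refl (te t) 1 (by unfold te; simp), psi_refl (te t) 2 (by unfold te; simp),
    psi0 t ht hx]
  have h4 : x j = t * (L (EuclideanSpace.single 0 (1 : ℝ))) j := by
    have h5 : te t = t • (EuclideanSpace.single 0 (1 : ℝ) : E3) := by
      unfold te
      ext k
      simp
    conv_lhs => rw [← hLv, h5, map_smul]
    simp
  rw [h4]
  ring

/-- Part IN1 -/
theorem inner_f : ∃ (f : E3 → ℝ) (f1 f2 : ℝ), Measurable f ∧ 0 < f1 ∧
    (∀ x, f1 ≤ f x ∧ f x ≤ f2) ∧ (∀ (L : E3 ≃ₗᵢ[ℝ] E3) x, f (L x) = f x) ∧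
    (∀ (j : Fin 3) (x : E3), ‖x‖ < 1 →
      ∫ y in Metric.ball (0 : E3) 1, gk 0 ‖x - y‖ * (y j : ℂ) = (f x : ℂ) * (x j : ℂ)) := by
  refine ⟨fun x => (5 - 3 * (min ‖x‖ 1) ^ 2) / 30, 1 / 15, 1 / 6, by fun_prop, by norm_num, ?_, ?_, ?_⟩
  · intro x
    have h1 : min ‖x‖ 1 ≤ 1 := min_le_right _ _
    have h2 : 0 ≤ min ‖x‖ 1 := le_min (norm_nonneg _) zero_le_one
    constructor
    · nlinarith
    · nlinarith
  · intro L x
    simp only [L.norm_map]
  · intro j x hx
    have h1 : ∀ y : E3, gk 0 ‖x - y‖ * (y j : ℂ) = ((kj x j y : ℝ) : ℂ) := by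
      intro y
      rw [gk_zero]
      unfold kj
      push_cast
      ring
    simp only [h1]
    rw [integral_complex_ofReal, psi_real x hx j, min_eq_left hx.le]
    push_cast
    ring

end Pool.Agent.Helper96.CE
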