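import Pool.Agent.Helper16.CE.Mn

/-! MP_95af1f_mp, part Y: the leading term. -/

set_option autoImplicit false

namespace Pool.Agent.Helper96.CE
open MeasureTheory Pool.Agent.Helper16.CE Set
open Pool.Agent.Helper78.CE (cut_exists T_outer_in dipole)
open scoped ENNReal

theorem mom_vanish (h : S) (hh : ∀ x, ‖x‖ < 1 → ev h x = 0) (j : Fin 3) : mom j h = 0 := by
  rw [mom_spec]
  rw [setIntegral_congr_fun (g := fun _ => (0:ℂ)) measurableSet_ball]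
  · simp
  · intro y hy
    simp only
    rw [hh y (mem_ball_zero_iff.1 hy), mul_zero]

theorem nuP_vanish (h : S) (hh : ∀ x, ‖x‖ < 1 → ev h x = 0) : nuP h = 0 := by
  have : nuP h = (1 / 2 : ℂ) * (mom 0 h - Complex.I * mom 1 h) := rfl
  rw [this, mom_vanish h hh, mom_vanish h hh]; simp

theorem nuM_vanish (h : S) (hh : ∀ x, ‖x‖ < 1 → ev h x = 0) : nuM h = 0 := by
  have : nuM h = (1 / 2 : ℂ) * (mom 0 h + Complex.I * mom 1 h) := rfl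
  rw [this, mom_vanish h hh, mom_vanish h hh]; simp

theorem A_vanish (D : Dat) (c k : ℂ) (hk : 0 ≤ k.im) (h : S) (hh : ∀ x, ‖x‖ < 1 → ev h x = 0) :
    D.A c k h = h := by
  have e1 : T k (Vc D.f c) h = 0 := by
    apply ev_ext
    intro x
    rw [T_spec k hk _ (D.pVc c), ev_zero]
    have : (fun y => gk k ‖x - y‖ * (Vc D.f c y * ev h y)) = fun _ => 0 := by
      funext y
      by_cases hy : ‖y‖ < 1
      · rw [hh y hy]; simp
      · rw [Vc_out D.f c y (not_lt.1 hy)]; simp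
    rw [this, integral_zero]
  have e2 : P h = 0 := by
    rw [Dat.P_app, nuP_vanish h hh, nuM_vanish h hh]; simp
  have e3 : D.A c k h = h + T k (Vc D.f c) h + (D.c0 : ℂ) • P h := rfl
  rw [e3, e1, e2]; simp

/-- `∫_B gk |z-y| y_j dy` -/
noncomputable def Th (k : ℂ) (j : Fin 3) (z : E3) : ℂ :=
  ∫ y in Metric.ball (0 : E3) 1, gk k ‖z - y‖ * (y j : ℂ)

/-- `∫_B gk |z-y| (y_0 + i y_1) dy` -/
noncomputable def The (k : ℂ) (z : E3) : ℂ := Th k 0 z + Complex.I * Th k 1 z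

theorem Th_src (k : ℂ) (j : Fin 3) (z : E3) : Th k j z = ∫ y, gk k ‖z - y‖ * src j y := by
  unfold Th
  rw [setInt_src]

theorem Th_meas (k : ℂ) (j : Fin 3) : Measurable (Th k j) := by
  have : Th k j = fun z => ∫ y, gk k ‖z - y‖ * src j y := by funext z; exact Th_src k j z
  rw [this]
  exact ((meas_ker k (src j) (src_meas j)).stronglyMeasurable.integral_prod_right).measurable

theorem Th_bdd (k : ℂ) (hk : 0 ≤ k.im) (j : Fin 3) : ∃ C : ℝ, ∀ z, ‖Th k j z‖ ≤ C := by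
  refine ⟨(4 * Real.pi)⁻¹ * (2 * Real.pi * 1 ^ 2 * 1 + (∫ y, ‖src j y‖) / 1), fun z => ?_⟩
  rw [Th_src]
  exact (ker_int k hk (src j) (src_meas j) 1 (src_le j) (src_int j) z).2 1 one_pos

theorem The_meas (k : ℂ) : Measurable (The k) :=
  (Th_meas k 0).add (measurable_const.mul (Th_meas k 1))

theorem ev_psiP_far (C : ℝ) (m2 : ℝ) (hd : ∀ (j : Fin 3) (k : ℂ) (z : E3),
    0 ≤ k.im → ‖k‖ ≤ 1 → 2 ≤ ‖z‖ →
    ‖Th k j z - m2 * Dk k ‖z‖ * ((z j / ‖z‖ : ℝ) : ℂ)‖ ≤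
      C * (‖k‖ + 1 / ‖z‖) * (‖k‖ / ‖z‖ + 1 / ‖z‖ ^ 2) ∧
    ‖Th k j z‖ ≤ C * (‖k‖ / ‖z‖ + 1 / ‖z‖ ^ 2)) (z : E3) (hz : 2 ≤ ‖z‖) :
    ‖ev psiP z‖ ≤ 2 * C * (1 / ‖z‖ ^ 2) ∧ ‖ev psiM z‖ ≤ 2 * C * (1 / ‖z‖ ^ 2) := by
  have h0 := (hd 0 0 z (by simp) (by simp) hz).2
  have h1 := (hd 1 0 z (by simp) (by simp) hz).2
  rw [norm_zero, zero_div, zero_add] at h0 h1
  have e0 : ev (psi 0) z = Th 0 0 z := psi_spec 0 (by decide) z
  have e1 : ev (psi 1) z = Th 0 1 z := psi_spec 1 (by decide) z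
  constructor
  · unfold psiP
    rw [ev_add, ev_smul, e0, e1]
    refine (norm_add_le _ _).trans ?_
    rw [norm_mul, Complex.norm_I, one_mul]
    linarith
  · unfold psiM
    rw [ev_sub, ev_smul, e0, e1]
    refine (norm_sub_le _ _).trans ?_
    rw [norm_mul, Complex.norm_I, one_mul]
    linarith

/-- `T k vv psiP = - The k` -/
theorem Tvv_psiP (D : Dat) (k : ℂ) (hk : 0 ≤ k.im) (z : E3) :
    ev (T k (vv D.f) psiP) z = - The k z := by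
  rw [T_spec k hk _ D.pv]
  have i0 := (ker_int k hk (src 0) (src_meas 0) 1 (src_le 0) (src_int 0) z).1
  have i1 := (ker_int k hk (src 1) (src_meas 1) 1 (src_le 1) (src_int 1) z).1
  unfold The
  rw [Th_src, Th_src, ← integral_const_mul, ← integral_add i0 (i1.const_mul _), ← integral_neg]
  congr 1
  funext y
  unfold src
  by_cases hy : y ∈ Metric.ball (0 : E3) 1
  · rw [indicator_of_mem hy, indicator_of_mem hy]
    have hy1 := mem_ball_zero_iff.1 hy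
    unfold psiP
    rw [ev_add, ev_smul, psi_in D.f D.hpsi 0 (by decide) y hy1, psi_in D.f D.hpsi 1 (by decide) y hy1]
    unfold vv
    rw [if_pos hy1]
    have hfy : (D.f y : ℂ) ≠ 0 := by
      exact_mod_cast (lt_of_lt_of_le D.hf1 (D.hf12 y).1).ne'
    push_cast
    field_simp
  · rw [indicator_of_notMem hy, indicator_of_notMem hy]
    unfold vv
    rw [if_neg (fun h => hy (mem_ball_zero_iff.2 h))]
    simp

theorem zp_le (z : E3) : ‖zp z‖ ≤ 2 * ‖z‖ := by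
  unfold zp
  refine (norm_add_le _ _).trans ?_
  rw [norm_mul, Complex.norm_I, one_mul, Complex.norm_real, Complex.norm_real]
  have := PiLp.norm_apply_le z 0
  have := PiLp.norm_apply_le z 1
  linarith

/-- the leading part of `The` -/
noncomputable def Mz (k : ℂ) (z : E3) : ℂ := Dk k ‖z‖ * (zp z / (‖z‖ : ℂ))

theorem Mz_meas (k : ℂ) : Measurable (Mz k) := by
  unfold Mz Dk zp
  have hn : Measurable (fun z : E3 => ((‖z‖ : ℝ) : ℂ)) :=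
    Complex.measurable_ofReal.comp measurable_norm
  have h0 : Measurable (fun z : E3 => ((z 0 : ℝ) : ℂ)) :=
    Complex.measurable_ofReal.comp (by fun_prop)
  have h1 : Measurable (fun z : E3 => ((z 1 : ℝ) : ℂ)) :=
    Complex.measurable_ofReal.comp (by fun_prop)
  have he : Measurable (fun z : E3 => Complex.exp (Complex.I * k * ((‖z‖ : ℝ) : ℂ))) :=
    Complex.measurable_exp.comp (measurable_const.mul hn)
  exact ((((measurable_const.div (hn.pow_const 2)).sub (measurable_const.div hn)).mul he).div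
    measurable_const).mul ((h0.add (measurable_const.mul h1)).div hn)

theorem The_dip (C : ℝ) (m2 : ℝ) (hd : ∀ (j : Fin 3) (k : ℂ) (z : E3),
    0 ≤ k.im → ‖k‖ ≤ 1 → 2 ≤ ‖z‖ →
    ‖Th k j z - m2 * Dk k ‖z‖ * ((z j / ‖z‖ : ℝ) : ℂ)‖ ≤
      C * (‖k‖ + 1 / ‖z‖) * (‖k‖ / ‖z‖ + 1 / ‖z‖ ^ 2) ∧
    ‖Th k j z‖ ≤ C * (‖k‖ / ‖z‖ + 1 / ‖z‖ ^ 2)) (k : ℂ) (hk : 0 ≤ k.im) (hk1 : ‖k‖ ≤ 1)
    (z : E3) (hz : 2 ≤ ‖z‖) :
    ‖The k z - m2 * Mz k z‖ ≤ 2 * C * (‖k‖ + 1 / ‖z‖) * (‖k‖ / ‖z‖ + 1 / ‖z‖ ^ 2) ∧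
    ‖The k z‖ ≤ 2 * C * (‖k‖ / ‖z‖ + 1 / ‖z‖ ^ 2) := by
  have h0 := hd 0 k z hk hk1 hz
  have h1 := hd 1 k z hk hk1 hz
  constructor
  · have e : The k z - m2 * Mz k z = (Th k 0 z - m2 * Dk k ‖z‖ * ((z 0 / ‖z‖ : ℝ) : ℂ)) +
        Complex.I * (Th k 1 z - m2 * Dk k ‖z‖ * ((z 1 / ‖z‖ : ℝ) : ℂ)) := by
      unfold The Mz zp
      push_cast
      ring
    rw [e]
    refine (norm_add_le _ _).trans ?_
    rw [norm_mul, Complex.norm_I, one_mul]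
    have := h0.1
    have := h1.1
    linarith
  · unfold The
    refine (norm_add_le _ _).trans ?_
    rw [norm_mul, Complex.norm_I, one_mul]
    have := h0.2
    have := h1.2
    linarith

theorem eps_le (a R0 : ℝ) (ha : 0 ≤ a) (hR0 : 2 ≤ R0) (r : ℝ) (hr : R0 ≤ r) :
    a / r + 1 / r ^ 2 ≤ a / R0 + 1 / R0 ^ 2 ∧ 1 / r ≤ 1 / R0 ∧ 1 / r ^ 2 ≤ a / R0 + 1 / R0 ^ 2 := by
  have h0 : 0 < R0 := by linarith
  have h1 : 0 < r := by linarith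
  have h2 : 1 / r ^ 2 ≤ 1 / R0 ^ 2 := by
    apply one_div_le_one_div_of_le (by positivity)
    gcongr
  have h3 : a / r ≤ a / R0 := by gcongr
  have h4 : 0 ≤ a / R0 := by positivity
  refine ⟨by linarith, one_div_le_one_div_of_le h0 hr, by linarith⟩

theorem mom_int_W (k : ℂ) (hk : 0 ≤ k.im) (W : E3 → ℂ) (hW : Pot W) (u : S) (j : Fin 3) :
    Integrable (fun z => W z * ev u z * Th k j z) volume := by
  obtain ⟨C, hC⟩ := Th_bdd k hk j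
  refine ((hW.mul_ev u).2.1.norm.mul_const C).mono'
    (((hW.mul_ev u).1.mul (Th_meas k j)).aestronglyMeasurable) (Filter.Eventually.of_forall fun z => ?_)
  rw [norm_mul]
  exact mul_le_mul_of_nonneg_left (hC z) (norm_nonneg _)

theorem nuM_TW (k : ℂ) (hk : 0 ≤ k.im) (W : E3 → ℂ) (hW : Pot W) (u : S) :
    nuM (T k W u) = 1 / 2 * ∫ z, W z * ev u z * The k z := by
  have : nuM (T k W u) = (1 / 2 : ℂ) * (mom 0 (T k W u) + Complex.I * mom 1 (T k W u)) := rfl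
  rw [this, mom_T 0 k hk W hW, mom_T 1 k hk W hW]
  congr 1
  have i0 := mom_int_W k hk W hW u 0
  have i1 := mom_int_W k hk W hW u 1
  show (∫ z, W z * ev u z * Th k 0 z) + Complex.I * (∫ z, W z * ev u z * Th k 1 z) = _
  rw [← integral_const_mul, ← integral_add i0 (i1.const_mul _)]
  congr 1
  funext z
  unfold The
  ring

/-- difference of integrals against `W` supported in `‖z‖ ≥ R0` -/
theorem int_diff (R0 I : ℝ) (W : E3 → ℂ) (hW : Pot W) (hW1 : ∀ x, ‖x‖ < R0 → W x = 0)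
    (hI : ∫ x, ‖W x‖ ≤ I) (f g : E3 → ℂ) (hf : Measurable f) (hg : Measurable g)
    (B e : ℝ) (he : 0 ≤ e)
    (hfB : ∀ z, R0 ≤ ‖z‖ → ‖f z‖ ≤ B) (hfg : ∀ z, R0 ≤ ‖z‖ → ‖f z - g z‖ ≤ e) :
    ‖(∫ z, W z * f z) - ∫ z, W z * g z‖ ≤ e * I := by
  have b1 : ∀ z, ‖W z * f z‖ ≤ B * ‖W z‖ := by
    intro z
    by_cases hz : ‖z‖ < R0
    · rw [hW1 z hz]; simp
    · rw [norm_mul, mul_comm]
      exact mul_le_mul_of_nonneg_right (hfB z (not_lt.1 hz)) (norm_nonneg _)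
  have b2 : ∀ z, ‖W z * g z‖ ≤ (B + e) * ‖W z‖ := by
    intro z
    by_cases hz : ‖z‖ < R0
    · rw [hW1 z hz]; simp
    · rw [norm_mul, mul_comm]
      refine mul_le_mul_of_nonneg_right ?_ (norm_nonneg _)
      have h1 := hfB z (not_lt.1 hz)
      have h2 := hfg z (not_lt.1 hz)
      have h3 : ‖g z‖ ≤ ‖f z‖ + ‖f z - g z‖ := by
        calc ‖g z‖ = ‖f z - (f z - g z)‖ := by congr 1; ring
          _ ≤ _ := norm_sub_le _ _
      linarith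
  have i1 : Integrable (fun z => W z * f z) volume :=
    (hW.int.norm.const_mul B).mono' (hW.meas.mul hf).aestronglyMeasurable
      (Filter.Eventually.of_forall b1)
  have i2 : Integrable (fun z => W z * g z) volume :=
    (hW.int.norm.const_mul (B + e)).mono' (hW.meas.mul hg).aestronglyMeasurable
      (Filter.Eventually.of_forall b2)
  rw [← integral_sub i1 i2]
  have b3 : ∀ z, ‖W z * f z - W z * g z‖ ≤ e * ‖W z‖ := by
    intro z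
    rw [← mul_sub]
    by_cases hz : ‖z‖ < R0
    · rw [hW1 z hz]; simp
    · rw [norm_mul, mul_comm]
      exact mul_le_mul_of_nonneg_right (hfg z (not_lt.1 hz)) (norm_nonneg _)
  refine (norm_integral_le_of_norm_le (hW.int.norm.const_mul e)
    (Filter.Eventually.of_forall b3)).trans ?_
  rw [integral_const_mul]
  exact mul_le_mul_of_nonneg_left hI he

theorem opn_nn (X : S →L[ℂ] S) : 0 ≤ ‖X‖ := ContinuousLinearMap.opNorm_nonneg X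
theorem fn_nn (X : S →L[ℂ] ℂ) : 0 ≤ ‖X‖ := ContinuousLinearMap.opNorm_nonneg X
theorem opn_app (X : S →L[ℂ] S) (u : S) : ‖X u‖ ≤ ‖X‖ * ‖u‖ := X.le_opNorm u
theorem fn_app (X : S →L[ℂ] ℂ) (u : S) : ‖X u‖ ≤ ‖X‖ * ‖u‖ := X.le_opNorm u

/-- `(Gk - G0) y` -/
theorem inv_diff_le (X Y : S →L[ℂ] S) (hX : IsUnit X) (hY : IsUnit Y) (K e : ℝ) (hK : 0 ≤ K)
    (hXK : ‖Ring.inverse X‖ ≤ K) (he : ‖X - Y‖ ≤ e) (y : S) :
    ‖Ring.inverse X y - Ring.inverse Y y‖ ≤ K * e * ‖Ring.inverse Y‖ * ‖y‖ := by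
  have h := inv_sub X Y hX hY
  have h2 : Ring.inverse X y - Ring.inverse Y y = Ring.inverse X ((Y - X) (Ring.inverse Y y)) := by
    calc Ring.inverse X y - Ring.inverse Y y = (Ring.inverse X - Ring.inverse Y) y := rfl
      _ = (Ring.inverse X * (Y - X) * Ring.inverse Y) y := by rw [h]
      _ = _ := rfl
  have he0 : 0 ≤ e := (opn_nn _).trans he
  rw [h2]
  calc ‖Ring.inverse X ((Y - X) (Ring.inverse Y y))‖ ≤ ‖Ring.inverse X‖ * ‖(Y - X) (Ring.inverse Y y)‖ :=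
        opn_app _ _
    _ ≤ K * (‖Y - X‖ * ‖Ring.inverse Y y‖) := by
        apply mul_le_mul hXK (opn_app _ _) (norm_nonneg _) hK
    _ ≤ K * (e * (‖Ring.inverse Y‖ * ‖y‖)) := by
        apply mul_le_mul_of_nonneg_left _ hK
        apply mul_le_mul _ (opn_app _ _) (norm_nonneg _) he0
        have e : Y - X = -(X - Y) := by abel
        rw [e, ContinuousLinearMap.opNorm_neg]; exact he
    _ = _ := by ring

/-- the cut trick -/
theorem cut_trick (D : Dat) (k : ℂ) (hk : 0 ≤ k.im) (hX : IsUnit (D.A 0 k)) (K e : ℝ) (hK : 0 ≤ K)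
    (hXK : ‖Ring.inverse (D.A 0 k)‖ ≤ K) (he : ‖D.A 0 k - D.A 0 0‖ ≤ e) (f : S) (p : ℝ) (hp : 0 ≤ p)
    (hf : ∀ x, ‖x‖ < 1 → ‖ev f x‖ ≤ p) :
    ‖Ring.inverse (D.A 0 k) f - Ring.inverse (D.A 0 0) f‖ ≤
      K * e * ‖Ring.inverse (D.A 0 0)‖ * p := by
  obtain ⟨g, hg⟩ := cut_exists f
  have hgn : ‖g‖ ≤ p := by
    apply norm_le_ev _ _ hp
    intro x
    rw [hg]
    split_ifs with hx
    · exact hf x hx
    · simpa using hp
  have hz : ∀ x, ‖x‖ < 1 → ev (f - g) x = 0 := by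
    intro x hx
    rw [ev_sub, hg, if_pos hx, sub_self]
  have e1 : Ring.inverse (D.A 0 k) (f - g) = f - g := by
    have := app_inv (D.A 0 k) hX (f - g)
    rwa [A_vanish D 0 k hk _ hz] at this
  have e2 : Ring.inverse (D.A 0 0) (f - g) = f - g := by
    have := app_inv (D.A 0 0) D.unit00 (f - g)
    rwa [A_vanish D 0 0 (by simp) _ hz] at this
  have e3 : Ring.inverse (D.A 0 k) f - Ring.inverse (D.A 0 0) f =
      Ring.inverse (D.A 0 k) g - Ring.inverse (D.A 0 0) g := by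
    rw [map_sub] at e1 e2
    have a1 : Ring.inverse (D.A 0 k) f = f - g + Ring.inverse (D.A 0 k) g := by rw [← e1]; abel
    have a2 : Ring.inverse (D.A 0 0) f = f - g + Ring.inverse (D.A 0 0) g := by rw [← e2]; abel
    rw [a1, a2]; abel
  rw [e3]
  have he0 : 0 ≤ e := (opn_nn _).trans he
  refine (inv_diff_le _ _ hX D.unit00 K e hK hXK he g).trans ?_
  exact mul_le_mul_of_nonneg_left hgn (by
    have : 0 ≤ ‖Ring.inverse (D.A 0 0)‖ := opn_nn _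
    positivity)

theorem lead (D : Dat) (K k0 c1 Ca : ℝ) (hK : 1 ≤ K) (hk01 : k0 ≤ 1) (hc1 : 0 < c1) (hCa : 0 < Ca)
    (hA : ∀ c k : ℂ, 0 ≤ k.im → ‖k‖ ≤ k0 → ‖c‖ < c1 →
      IsUnit (D.A c k) ∧ ‖Ring.inverse (D.A c k)‖ ≤ K)
    (hA2 : ∀ c k : ℂ, 0 ≤ k.im → ‖c‖ < c1 → ‖D.A c k - D.A c 0‖ ≤ Ca * ‖k‖ ^ 2) :
    ∃ κ1 C : ℝ, 0 < κ1 ∧ 0 < C ∧ ∀ (k : ℂ) (R0 I : ℝ) (W : E3 → ℂ), 0 ≤ k.im → ‖k‖ ≤ k0 →
      2 ≤ R0 → Pot W → (∀ x, ‖x‖ < R0 → W x = 0) → ∫ x, ‖W x‖ ≤ I →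
      ‖nuM (Ring.inverse (D.A 0 k) (T k W (Ring.inverse (D.A 0 k) psiP))) -
          κ1 * ∫ z, W z * (Dk k ‖z‖ * (zp z / (‖z‖ : ℂ))) ^ 2‖ ≤
        C * (‖k‖ / R0 + 1 / R0 ^ 2) ^ 2 * I * (‖k‖ + 1 / R0) := by
  obtain ⟨m2, Cd, hm2, hCd, hd⟩ := dipole
  obtain ⟨Cf, hCf, hfar⟩ := T_far (vv D.f) D.pv (vv_out D.f)
  obtain ⟨δ, hδ, h1, h2, h3, h4⟩ := D.exists_delta
  set a : ℝ := D.c0 * δ with ha
  have ha0 : 0 < a := mul_pos D.hc0 hδ
  have hac : (a : ℂ) ≠ 0 := by exact_mod_cast ha0.ne'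
  set N0 : ℝ := ‖Ring.inverse (D.A 0 0)‖ with hN0
  have hN00 : 0 ≤ N0 := opn_nn _
  set Np : ℝ := ‖nuP‖ with hNp
  have hNp0 : 0 ≤ Np := fn_nn _
  set Nm : ℝ := ‖nuM‖ with hNm
  have hNm0 : 0 ≤ Nm := fn_nn _
  set ps : ℝ := ‖psiP‖ with hps
  have hps0 : 0 ≤ ps := norm_nonneg _
  have hc0 := D.hc0
  set C1 : ℝ := K * Ca * N0 * ps with hC1
  have hC10 : 0 ≤ C1 := by positivity
  set C2 : ℝ := Cf * C1 + D.c0 * Np * C1 * (2 * Cd) + D.c0 * Nm * C1 * (2 * Cd) with hC2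
  have hC20 : 0 ≤ C2 := by positivity
  set C3 : ℝ := a⁻¹ * (2 * Cd) + C2 with hC3
  have hC30 : 0 ≤ C3 := by positivity
  refine ⟨m2 ^ 2 / (2 * a ^ 2), Nm * (K * Ca * N0 * C3) + a⁻¹ * C2 * Cd + 8 * a⁻¹ ^ 2 * Cd ^ 2 + 1,
    by positivity, by positivity, fun k R0 I W hk hkk hR0 hW hW1 hI => ?_⟩
  have hk1 : ‖k‖ ≤ 1 := hkk.trans hk01
  have hz00 : ‖(0 : ℂ)‖ < c1 := by rw [norm_zero]; exact hc1
  obtain ⟨hu, hinv⟩ := hA 0 k hk hkk hz00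
  have hAd := hA2 0 k hk hz00
  have hK0 : 0 ≤ K := by linarith
  have hkn : 0 ≤ ‖k‖ := norm_nonneg k
  have hR00 : 0 < R0 := by linarith
  set ε : ℝ := ‖k‖ / R0 + 1 / R0 ^ 2 with hε
  have hε0 : 0 ≤ ε := by positivity
  have hI0 : 0 ≤ I := (integral_nonneg (fun _ => norm_nonneg _)).trans hI
  have hkk2 : ‖k‖ ^ 2 ≤ ‖k‖ := by nlinarith
  have hkk3 : ‖k‖ ^ 2 ≤ 1 := hkk2.trans hk1
  -- the first solution
  set u : S := Ring.inverse (D.A 0 k) psiP with hudef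
  have hG00 : Ring.inverse (D.A 0 0) psiP = (a : ℂ)⁻¹ • psiP := D.G00_psiP δ hδ h1 h4
  set w : S := u - (a : ℂ)⁻¹ • psiP with hw
  have hwn : ‖w‖ ≤ C1 * ‖k‖ ^ 2 := by
    rw [hw, hudef, ← hG00]
    refine (inv_diff_le _ _ hu D.unit00 K _ hK0 hinv hAd psiP).trans (le_of_eq ?_)
    rw [hC1]; ring
  have huw : u = (a : ℂ)⁻¹ • psiP + w := by rw [hw]; abel
  have hAu : D.A 0 k u = psiP := inv_app _ hu psiP
  have hAe : D.A 0 k u = u + T k (vv D.f) u + (D.c0 : ℂ) • P u := by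
    rw [D.A_eq 0 k hk, op_zero_smul, add_zero]; rfl
  have hcd : (D.c0 : ℂ) * ((a : ℂ)⁻¹ * (δ : ℂ)) = 1 := by
    have hδc : (δ : ℂ) ≠ 0 := by exact_mod_cast hδ.ne'
    have hcc : (D.c0 : ℂ) ≠ 0 := by exact_mod_cast hc0.ne'
    rw [ha]; push_cast; field_simp
  have hPu : (D.c0 : ℂ) • P u = psiP + ((D.c0 : ℂ) * nuP w) • psiP + ((D.c0 : ℂ) * nuM w) • psiM := by
    rw [Dat.P_app, huw, map_add, map_add, map_smul, map_smul, h1, h4, smul_eq_mul, smul_eq_mul,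
      mul_zero, zero_add, smul_add, smul_smul, smul_smul, mul_add, hcd, add_smul, one_smul]
  have hdd : ∀ (j : Fin 3) (k : ℂ) (z : E3),
    0 ≤ k.im → ‖k‖ ≤ 1 → 2 ≤ ‖z‖ →
    ‖Th k j z - m2 * Dk k ‖z‖ * ((z j / ‖z‖ : ℝ) : ℂ)‖ ≤
      Cd * (‖k‖ + 1 / ‖z‖) * (‖k‖ / ‖z‖ + 1 / ‖z‖ ^ 2) ∧
    ‖Th k j z‖ ≤ Cd * (‖k‖ / ‖z‖ + 1 / ‖z‖ ^ 2) := hd
  -- pointwise formula
  have hev : ∀ z, ev u z - (a : ℂ)⁻¹ * The k z = - ev (T k (vv D.f) w) z -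
      ((D.c0 : ℂ) * nuP w) * ev psiP z - ((D.c0 : ℂ) * nuM w) * ev psiM z := by
    intro z
    have e1 : ev (D.A 0 k u) z = ev psiP z := by rw [hAu]
    rw [hAe, ev_add, ev_add, hPu, ev_add, ev_add, ev_smul, ev_smul] at e1
    have e2 : ev (T k (vv D.f) u) z = (a : ℂ)⁻¹ * (- The k z) + ev (T k (vv D.f) w) z := by
      rw [huw, map_add, map_smul, ev_add, ev_smul, Tvv_psiP D k hk z]
    rw [e2] at e1
    linear_combination e1
  have hue : ∀ z, R0 ≤ ‖z‖ → ‖ev u z - (a : ℂ)⁻¹ * The k z‖ ≤ C2 * ‖k‖ ^ 2 * ε := by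
    intro z hz
    have hz2 : 2 ≤ ‖z‖ := hR0.trans hz
    obtain ⟨q1, q2, q3⟩ := eps_le ‖k‖ R0 hkn hR0 ‖z‖ hz
    have f1 := hfar k hk w z hz2
    obtain ⟨f2, f3⟩ := ev_psiP_far Cd m2 hdd z hz2
    rw [hev z]
    have n1 : ‖ev (T k (vv D.f) w) z‖ ≤ Cf * ε * (C1 * ‖k‖ ^ 2) := by
      refine f1.trans ?_
      apply mul_le_mul _ hwn (norm_nonneg _) (by positivity)
      exact mul_le_mul_of_nonneg_left q1 hCf.le
    have nP : ‖nuP w‖ ≤ Np * (C1 * ‖k‖ ^ 2) :=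
      (fn_app nuP w).trans (mul_le_mul_of_nonneg_left hwn hNp0)
    have nM : ‖nuM w‖ ≤ Nm * (C1 * ‖k‖ ^ 2) :=
      (fn_app nuM w).trans (mul_le_mul_of_nonneg_left hwn hNm0)
    have nc : ‖(D.c0 : ℂ)‖ = D.c0 := by rw [Complex.norm_real]; exact Real.norm_of_nonneg hc0.le
    have n2 : ‖((D.c0 : ℂ) * nuP w) * ev psiP z‖ ≤ (D.c0 * (Np * (C1 * ‖k‖ ^ 2))) * (2 * Cd * ε) := by
      rw [norm_mul, norm_mul, nc]
      apply mul_le_mul _ _ (norm_nonneg _) (by positivity)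
      · exact mul_le_mul_of_nonneg_left nP hc0.le
      · exact f2.trans (mul_le_mul_of_nonneg_left q3 (by positivity))
    have n3 : ‖((D.c0 : ℂ) * nuM w) * ev psiM z‖ ≤ (D.c0 * (Nm * (C1 * ‖k‖ ^ 2))) * (2 * Cd * ε) := by
      rw [norm_mul, norm_mul, nc]
      apply mul_le_mul _ _ (norm_nonneg _) (by positivity)
      · exact mul_le_mul_of_nonneg_left nM hc0.le
      · exact f3.trans (mul_le_mul_of_nonneg_left q3 (by positivity))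
    calc _ ≤ ‖- ev (T k (vv D.f) w) z - ((D.c0 : ℂ) * nuP w) * ev psiP z‖ +
          ‖((D.c0 : ℂ) * nuM w) * ev psiM z‖ := norm_sub_le _ _
      _ ≤ ‖- ev (T k (vv D.f) w) z‖ + ‖((D.c0 : ℂ) * nuP w) * ev psiP z‖ +
          ‖((D.c0 : ℂ) * nuM w) * ev psiM z‖ := by gcongr; exact norm_sub_le _ _
      _ ≤ Cf * ε * (C1 * ‖k‖ ^ 2) + (D.c0 * (Np * (C1 * ‖k‖ ^ 2))) * (2 * Cd * ε) +
          (D.c0 * (Nm * (C1 * ‖k‖ ^ 2))) * (2 * Cd * ε) := by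
          rw [norm_neg]; gcongr
      _ = C2 * ‖k‖ ^ 2 * ε := by rw [hC2]; ring
  have hTh : ∀ z, R0 ≤ ‖z‖ → ‖The k z‖ ≤ 2 * Cd * ε := by
    intro z hz
    obtain ⟨q1, q2, q3⟩ := eps_le ‖k‖ R0 hkn hR0 ‖z‖ hz
    exact (The_dip Cd m2 hdd k hk hk1 z (hR0.trans hz)).2.trans
      (mul_le_mul_of_nonneg_left q1 (by positivity))
  have nai : ‖(a : ℂ)⁻¹‖ = a⁻¹ := by
    rw [norm_inv, Complex.norm_real, Real.norm_of_nonneg ha0.le]
  have hub : ∀ z, R0 ≤ ‖z‖ → ‖ev u z‖ ≤ C3 * ε := by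
    intro z hz
    have e1 : ev u z = (a : ℂ)⁻¹ * The k z + (ev u z - (a : ℂ)⁻¹ * The k z) := by ring
    rw [e1]
    refine (norm_add_le _ _).trans ?_
    rw [norm_mul, nai]
    have t1 : a⁻¹ * ‖The k z‖ ≤ a⁻¹ * (2 * Cd * ε) :=
      mul_le_mul_of_nonneg_left (hTh z hz) (by positivity)
    have t2 : C2 * ‖k‖ ^ 2 * ε ≤ C2 * 1 * ε := by gcongr
    have t3 := hue z hz
    calc _ ≤ a⁻¹ * (2 * Cd * ε) + C2 * 1 * ε := by linarith
      _ = C3 * ε := by rw [hC3]; ring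
  -- the inner part of `f`
  set f : S := T k W u with hf
  have hfin : ∀ x, ‖x‖ < 1 → ‖ev f x‖ ≤ C3 * ε ^ 2 * I := by
    intro x hx
    have := T_outer_in k hk R0 hR0 W hW hW1 u (C3 * ε) hub x hx
    refine this.trans ?_
    calc (‖k‖ / R0 + 1 / R0 ^ 2) * (∫ y, ‖W y‖) * (C3 * ε) ≤ ε * I * (C3 * ε) := by
          gcongr
      _ = _ := by ring
  have hcut := cut_trick D k hk hu K _ hK0 hinv hAd f (C3 * ε ^ 2 * I) (by positivity) hfin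
  have hd1 : ‖nuM (Ring.inverse (D.A 0 k) f) - nuM (Ring.inverse (D.A 0 0) f)‖ ≤
      Nm * (K * (Ca * ‖k‖ ^ 2) * N0 * (C3 * ε ^ 2 * I)) := by
    rw [← map_sub]
    exact (fn_app nuM _).trans (mul_le_mul_of_nonneg_left hcut hNm0)
  have hd2 : nuM (Ring.inverse (D.A 0 0) f) = (a : ℂ)⁻¹ * (1 / 2 * ∫ z, W z * (ev u z * The k z)) := by
    rw [D.nuM_G00 δ hδ h2 h4 f, hf, nuM_TW k hk W hW u]
    congr 3
    funext z
    ring
  have hd3 := int_diff R0 I W hW hW1 hI (fun z => ev u z * The k z)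
    (fun z => (a : ℂ)⁻¹ * The k z ^ 2) ((meas_ev u).mul (The_meas k))
    (measurable_const.mul ((The_meas k).pow_const 2)) (C3 * ε * (2 * Cd * ε))
    (C2 * ‖k‖ ^ 2 * ε * (2 * Cd * ε)) (by positivity) (fun z hz => by
      rw [norm_mul]
      exact mul_le_mul (hub z hz) (hTh z hz) (norm_nonneg _) (by positivity)) (fun z hz => by
      have : ev u z * The k z - (a : ℂ)⁻¹ * The k z ^ 2 = (ev u z - (a : ℂ)⁻¹ * The k z) * The k z := by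
        ring
      rw [this, norm_mul]
      exact mul_le_mul (hue z hz) (hTh z hz) (norm_nonneg _) (by positivity))
  have hd4 := int_diff R0 I W hW hW1 hI (fun z => The k z ^ 2)
    (fun z => (m2 : ℂ) ^ 2 * Mz k z ^ 2) ((The_meas k).pow_const 2)
    (measurable_const.mul ((Mz_meas k).pow_const 2)) ((2 * Cd * ε) ^ 2)
    (2 * Cd * (‖k‖ + 1 / R0) * ε * (8 * Cd * ε)) (by positivity) (fun z hz => by
      rw [norm_pow]
      exact pow_le_pow_left₀ (norm_nonneg _) (hTh z hz) 2) (fun z hz => by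
      obtain ⟨q1, q2, q3⟩ := eps_le ‖k‖ R0 hkn hR0 ‖z‖ hz
      have g1 := (The_dip Cd m2 hdd k hk hk1 z (hR0.trans hz)).1
      have g2 : ‖The k z - m2 * Mz k z‖ ≤ 2 * Cd * (‖k‖ + 1 / R0) * ε := by
        refine g1.trans ?_
        have hz0 : 0 < ‖z‖ := by linarith
        gcongr
      have g3 := hTh z hz
      have g4 : ‖The k z + m2 * Mz k z‖ ≤ 8 * Cd * ε := by
        have e1 : The k z + m2 * Mz k z = (2 : ℂ) * The k z - (The k z - m2 * Mz k z) := by ring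
        rw [e1]
        refine (norm_sub_le _ _).trans ?_
        rw [norm_mul]
        have n2 : ‖(2 : ℂ)‖ = 2 := by norm_num
        rw [n2]
        have hR1 : 1 / R0 ≤ 1 := by rw [div_le_one hR00]; linarith
        have g5 : 2 * Cd * (‖k‖ + 1 / R0) * ε ≤ 2 * Cd * 2 * ε := by
          gcongr
          linarith
        linarith
      have e1 : The k z ^ 2 - (m2 : ℂ) ^ 2 * Mz k z ^ 2 =
          (The k z - m2 * Mz k z) * (The k z + m2 * Mz k z) := by ring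
      rw [e1, norm_mul]
      exact mul_le_mul g2 g4 (norm_nonneg _) (by positivity))
  have j1 : ∫ z, W z * ((a : ℂ)⁻¹ * The k z ^ 2) = (a : ℂ)⁻¹ * ∫ z, W z * The k z ^ 2 := by
    rw [← integral_const_mul]; congr 1; funext z; ring
  have j2 : ∫ z, W z * ((m2 : ℂ) ^ 2 * Mz k z ^ 2) = (m2 : ℂ) ^ 2 * ∫ z, W z * Mz k z ^ 2 := by
    rw [← integral_const_mul]; congr 1; funext z; ring
  rw [j1] at hd3
  rw [j2] at hd4
  have j3 : ∫ z, W z * (Dk k ‖z‖ * (zp z / (‖z‖ : ℂ))) ^ 2 = ∫ z, W z * Mz k z ^ 2 := rfl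
  rw [j3]
  set X1 := ∫ z, W z * (ev u z * The k z)
  set X2 := ∫ z, W z * The k z ^ 2
  set X3 := ∫ z, W z * Mz k z ^ 2
  have e1 : nuM (Ring.inverse (D.A 0 k) f) - ((m2 ^ 2 / (2 * a ^ 2) : ℝ) : ℂ) * X3 =
      (nuM (Ring.inverse (D.A 0 k) f) - nuM (Ring.inverse (D.A 0 0) f)) +
      (((a : ℂ)⁻¹ * (1 / 2)) * (X1 - (a : ℂ)⁻¹ * X2) +
        ((a : ℂ)⁻¹ * (1 / 2) * (a : ℂ)⁻¹) * (X2 - (m2 : ℂ) ^ 2 * X3)) := by
    rw [hd2]
    push_cast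
    field_simp
    ring
  rw [e1]
  have nh : ‖(1 / 2 : ℂ)‖ = 1 / 2 := by norm_num
  have k1 : ‖((a : ℂ)⁻¹ * (1 / 2)) * (X1 - (a : ℂ)⁻¹ * X2)‖ ≤
      a⁻¹ * (1 / 2) * (C2 * ‖k‖ ^ 2 * ε * (2 * Cd * ε) * I) := by
    rw [norm_mul, norm_mul, nai, nh]
    exact mul_le_mul_of_nonneg_left hd3 (by positivity)
  have k2 : ‖((a : ℂ)⁻¹ * (1 / 2) * (a : ℂ)⁻¹) * (X2 - (m2 : ℂ) ^ 2 * X3)‖ ≤
      a⁻¹ * (1 / 2) * a⁻¹ * (2 * Cd * (‖k‖ + 1 / R0) * ε * (8 * Cd * ε) * I) := by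
    rw [norm_mul, norm_mul, norm_mul, nai, nh]
    exact mul_le_mul_of_nonneg_left hd4 (by positivity)
  have hkR : ‖k‖ ^ 2 ≤ ‖k‖ + 1 / R0 := by
    have : 0 ≤ 1 / R0 := by positivity
    linarith
  calc _ ≤ Nm * (K * (Ca * ‖k‖ ^ 2) * N0 * (C3 * ε ^ 2 * I)) +
        (a⁻¹ * (1 / 2) * (C2 * ‖k‖ ^ 2 * ε * (2 * Cd * ε) * I) +
        a⁻¹ * (1 / 2) * a⁻¹ * (2 * Cd * (‖k‖ + 1 / R0) * ε * (8 * Cd * ε) * I)) :=
        (norm_add_le _ _).trans (add_le_add hd1 ((norm_add_le _ _).trans (add_le_add k1 k2)))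
    _ = (Nm * (K * Ca * N0 * C3) + a⁻¹ * C2 * Cd) * ε ^ 2 * I * ‖k‖ ^ 2 +
        8 * a⁻¹ ^ 2 * Cd ^ 2 * ε ^ 2 * I * (‖k‖ + 1 / R0) := by ring
    _ ≤ (Nm * (K * Ca * N0 * C3) + a⁻¹ * C2 * Cd) * ε ^ 2 * I * (‖k‖ + 1 / R0) +
        8 * a⁻¹ ^ 2 * Cd ^ 2 * ε ^ 2 * I * (‖k‖ + 1 / R0) + ε ^ 2 * I * (‖k‖ + 1 / R0) := by
        have : 0 ≤ ε ^ 2 * I * (‖k‖ + 1 / R0) := by positivity
        have t : (Nm * (K * Ca * N0 * C3) + a⁻¹ * C2 * Cd) * ε ^ 2 * I * ‖k‖ ^ 2 ≤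
            (Nm * (K * Ca * N0 * C3) + a⁻¹ * C2 * Cd) * ε ^ 2 * I * (‖k‖ + 1 / R0) := by
          apply mul_le_mul_of_nonneg_left hkR
          positivity
        linarith
    _ = _ := by ring

end Pool.Agent.Helper96.CE
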