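import Pool.Agent.Helper16.CE.Defs
import Pool.Graph.R_seed8.Helper209.CX.K01
import Pool.Graph.R_seed8.Helper209.CX.K08
import Pool.Graph.R_seed8.Helper209.CX.K09

/-! MP_95af1f_mp, part F: a bounded solution of `u = - G_k (V u)` is an eigenfunction.
Fourier transform of the Green function of `-Δ - k²` in dimension three. -/

set_option autoImplicit false

namespace Pool.Agent.Helper96.CE
open MeasureTheory Pool.Agent.Helper16.CE Set Filter
open scoped ENNReal FourierTransform

/-! ### coordinates -/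

/-- `ℝ³ = ℝ × ℝ²` -/
noncomputable def e3 : E3 ≃ᵐ ℝ × (ℝ × ℝ) :=
  (MeasurableEquiv.toLp 2 (Fin 3 → ℝ)).symm.trans
    ((MeasurableEquiv.piFinSuccAbove (fun _ : Fin 3 => ℝ) 0).trans
      (MeasurableEquiv.prodCongr (MeasurableEquiv.refl ℝ) MeasurableEquiv.finTwoArrow))

theorem e3_apply (x : E3) : e3 x = (x 0, (x 1, x 2)) := rfl

theorem e3_mp : MeasurePreserving e3 (volume : Measure E3) (volume : Measure (ℝ × (ℝ × ℝ))) := by
  have h1 := EuclideanSpace.volume_preserving_symm_measurableEquiv_toLp (Fin 3)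
  have h2 := volume_preserving_piFinSuccAbove (fun _ : Fin 3 => ℝ) 0
  have h3 := (MeasurePreserving.id (volume : Measure ℝ)).prod (volume_preserving_finTwoArrow ℝ)
  exact (h3.comp h2).comp h1

theorem norm_E3 (x : E3) : ‖x‖ = √((x 0) ^ 2 + ((x 1) ^ 2 + (x 2) ^ 2)) := by
  rw [EuclideanSpace.norm_eq]
  congr 1
  simp only [Fin.sum_univ_three, Real.norm_eq_abs, sq_abs]
  ring

/-! ### integrals of the Green function -/

theorem norm_gk (k : ℂ) {r : ℝ} (hr : 0 ≤ r) :
    ‖gk k r‖ = Real.exp (-(k.im * r)) / (4 * Real.pi * r) := by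
  unfold gk
  rw [norm_div, Complex.norm_exp, Complex.norm_real, Real.norm_eq_abs, abs_of_nonneg (by positivity)]
  congr 2
  simp

theorem measurable_gk (k : ℂ) : Measurable (gk k) := by
  unfold gk
  fun_prop

theorem green_int {k : ℂ} (hk : 0 < k.im) : Integrable (fun x : E3 => gk k ‖x‖) volume := by
  refine (integrable_norm_iff ((measurable_gk k).comp measurable_norm).aestronglyMeasurable).1 ?_
  refine (integrable_fun_norm_addHaar (E := E3) volume (f := fun r => ‖gk k r‖)).2 ?_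
  have hd : Module.finrank ℝ E3 = 3 := by simp
  rw [hd]
  have h2 : IntegrableOn (fun r : ℝ => r * Real.exp (-(k.im * r)) / (4 * Real.pi)) (Ioi 0) := by
    apply Integrable.div_const
    have := integrableOn_rpow_mul_exp_neg_mul_rpow (p := 1) (s := 1) (b := k.im) (by norm_num)
      one_pos hk
    refine this.congr_fun ?_ measurableSet_Ioi
    intro r hr
    simp only [Real.rpow_one]
    ring_nf
  refine h2.congr_fun ?_ measurableSet_Ioi
  intro r hr
  have hr0 : (0 : ℝ) < r := hr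
  simp only [smul_eq_mul]
  rw [norm_gk k hr0.le]
  field_simp

theorem exp_tendsto {k : ℂ} (hk : 0 < k.im) (z : ℝ) :
    Tendsto (fun r : ℝ => Complex.exp (Complex.I * k * (√(z ^ 2 + r ^ 2) : ℝ))) atTop (nhds 0) := by
  rw [Complex.tendsto_exp_nhds_zero_iff]
  have h1 : ∀ r : ℝ, (Complex.I * k * (√(z ^ 2 + r ^ 2) : ℝ)).re = -k.im * √(z ^ 2 + r ^ 2) := by
    intro r
    simp
  simp only [h1]
  have h2 : Tendsto (fun r : ℝ => √(z ^ 2 + r ^ 2)) atTop atTop := by
    apply Real.tendsto_sqrt_atTop.comp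
    apply tendsto_atTop_add_const_left
    exact tendsto_pow_atTop (by norm_num)
  exact h2.const_mul_atTop_of_neg (by linarith)

theorem radial_int {k : ℂ} (hk : 0 < k.im) (z : ℝ) :
    ∫ r in Ioi (0 : ℝ), (r : ℂ) * gk k (√(z ^ 2 + r ^ 2)) =
      Complex.I * Complex.exp (Complex.I * k * (|z| : ℝ)) / (4 * Real.pi * k) := by
  have hk0 : k ≠ 0 := by rintro rfl; simp at hk
  have hpi : (Real.pi : ℂ) ≠ 0 := by exact_mod_cast Real.pi_ne_zero
  set F : ℝ → ℂ := fun r => Complex.exp (Complex.I * k * (√(z ^ 2 + r ^ 2) : ℝ)) /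
    (4 * Real.pi * (Complex.I * k)) with hF
  have hcont : ContinuousWithinAt F (Ici 0) 0 := by
    apply Continuous.continuousWithinAt
    rw [hF]
    apply Continuous.div_const
    apply Complex.continuous_exp.comp
    apply Continuous.mul continuous_const
    apply Complex.continuous_ofReal.comp
    fun_prop
  have hder : ∀ r ∈ Ioi (0 : ℝ), HasDerivAt F ((r : ℂ) * gk k (√(z ^ 2 + r ^ 2))) r := by
    intro r hr
    have hr0 : (0 : ℝ) < r := hr
    have hpos : 0 < z ^ 2 + r ^ 2 := by positivity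
    have hs : 0 < √(z ^ 2 + r ^ 2) := Real.sqrt_pos.2 hpos
    have h1 : HasDerivAt (fun r : ℝ => √(z ^ 2 + r ^ 2)) (r / √(z ^ 2 + r ^ 2)) r := by
      have h2 : HasDerivAt (fun r : ℝ => z ^ 2 + r ^ 2) (2 * r) r := by
        have := (hasDerivAt_pow 2 r).const_add (z ^ 2)
        simpa using this
      have h3 := h2.sqrt hpos.ne'
      convert! h3 using 1
      field_simp
    have h4 : HasDerivAt (fun r : ℝ => Complex.I * k * (√(z ^ 2 + r ^ 2) : ℝ))
        (Complex.I * k * ((r / √(z ^ 2 + r ^ 2) : ℝ) : ℂ)) r :=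
      (h1.ofReal_comp).const_mul _
    have h5 := (h4.cexp).div_const (4 * Real.pi * (Complex.I * k))
    convert! h5 using 1
    unfold gk
    have hs' : ((√(z ^ 2 + r ^ 2) : ℝ) : ℂ) ≠ 0 := by exact_mod_cast hs.ne'
    have hI := Complex.I_ne_zero
    push_cast
    field_simp
  have hint : IntegrableOn (fun r : ℝ => (r : ℂ) * gk k (√(z ^ 2 + r ^ 2))) (Ioi 0) := by
    have h2 : IntegrableOn (fun r : ℝ => Real.exp (-(k.im * r)) / (4 * Real.pi)) (Ioi 0) := by
      apply Integrable.div_const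
      have := integrableOn_exp_mul_Ioi (a := -k.im) (by linarith) 0
      refine this.congr_fun ?_ measurableSet_Ioi
      intro r hr
      simp only [neg_mul]
    refine Integrable.mono' h2 ?_ ?_
    · apply Measurable.aestronglyMeasurable
      exact Complex.measurable_ofReal.mul ((measurable_gk k).comp (by fun_prop))
    · refine (ae_restrict_iff' measurableSet_Ioi).2 (Eventually.of_forall fun r hr => ?_)
      have hr0 : (0 : ℝ) < r := hr
      have hpos : 0 < z ^ 2 + r ^ 2 := by positivity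
      have hs : 0 < √(z ^ 2 + r ^ 2) := Real.sqrt_pos.2 hpos
      have hrs : r ≤ √(z ^ 2 + r ^ 2) := Real.le_sqrt_of_sq_le (by nlinarith [sq_nonneg z])
      rw [norm_mul, norm_gk k hs.le, Complex.norm_real, Real.norm_eq_abs, abs_of_pos hr0]
      have h3 : Real.exp (-(k.im * √(z ^ 2 + r ^ 2))) ≤ Real.exp (-(k.im * r)) := by
        apply Real.exp_le_exp.2
        nlinarith
      have h4 : r / √(z ^ 2 + r ^ 2) ≤ 1 := (div_le_one hs).2 hrs
      calc r * (Real.exp (-(k.im * √(z ^ 2 + r ^ 2))) / (4 * Real.pi * √(z ^ 2 + r ^ 2))) =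
            (r / √(z ^ 2 + r ^ 2)) * (Real.exp (-(k.im * √(z ^ 2 + r ^ 2))) / (4 * Real.pi)) := by
            field_simp
        _ ≤ 1 * (Real.exp (-(k.im * r)) / (4 * Real.pi)) := by
            apply mul_le_mul h4 _ (by positivity) (by norm_num)
            exact div_le_div_of_nonneg_right h3 (by positivity)
        _ = _ := one_mul _
  have hlim : Tendsto F atTop (nhds (0 / (4 * Real.pi * (Complex.I * k)))) :=
    (exp_tendsto hk z).div_const _
  rw [integral_Ioi_of_hasDerivAt_of_tendsto hcont hder hint hlim]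
  simp only [hF]
  have h6 : √(z ^ 2 + 0 ^ 2) = |z| := by
    rw [zero_pow (by norm_num), add_zero, Real.sqrt_sq_eq_abs]
  rw [h6, zero_div, zero_sub]
  have hI := Complex.I_ne_zero
  field_simp
  rw [Complex.I_sq]

theorem slice_int {k : ℂ} (hk : 0 < k.im) (z : ℝ) :
    ∫ p : ℝ × ℝ, gk k (√(z ^ 2 + (p.1 ^ 2 + p.2 ^ 2))) =
      Complex.I * Complex.exp (Complex.I * k * (|z| : ℝ)) / (2 * k) := by
  rw [← integral_comp_polarCoord_symm]
  have h1 : ∀ p : ℝ × ℝ, p.1 • gk k (√(z ^ 2 + ((polarCoord.symm p).1 ^ 2 + (polarCoord.symm p).2 ^ 2))) =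
      ((p.1 : ℂ) * gk k (√(z ^ 2 + p.1 ^ 2))) * (1 : ℂ) := by
    intro p
    have h2 : (polarCoord.symm p).1 ^ 2 + (polarCoord.symm p).2 ^ 2 = p.1 ^ 2 := by
      rw [polarCoord_symm_apply]
      simp only
      have := Real.sin_sq_add_cos_sq p.2
      linear_combination p.1 ^ 2 * this
    rw [h2]
    simp
  simp only [h1]
  rw [polarCoord_target]
  rw [Measure.volume_eq_prod, setIntegral_prod_mul (fun r : ℝ => (r : ℂ) * gk k (√(z ^ 2 + r ^ 2)))
    (fun _ => (1 : ℂ)), radial_int hk z]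
  rw [setIntegral_const]
  have hpi : (Real.pi : ℂ) ≠ 0 := by exact_mod_cast Real.pi_ne_zero
  have hk0 : k ≠ 0 := by rintro rfl; simp at hk
  have hv : (volume.real (Ioo (-Real.pi) Real.pi)) = 2 * Real.pi := by
    rw [Measure.real, Real.volume_Ioo, ENNReal.toReal_ofReal (by linarith [Real.pi_pos])]
    ring
  rw [hv]
  simp only [Complex.real_smul, mul_one]
  push_cast
  field_simp
  ring

theorem line_int {k : ℂ} (hk : 0 < k.im) (s : ℝ) :
    ∫ z : ℝ, Complex.exp (-(2 * Real.pi * Complex.I * ((z * s : ℝ) : ℂ))) *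
      (Complex.I * Complex.exp (Complex.I * k * (|z| : ℝ)) / (2 * k)) =
      1 / ((((2 * Real.pi * s) ^ 2 : ℝ) : ℂ) - k ^ 2) := by
  have hk0 : k ≠ 0 := by rintro rfl; simp at hk
  set a : ℂ := Complex.I * k - 2 * Real.pi * Complex.I * s with ha
  set b : ℂ := -(Complex.I * k) - 2 * Real.pi * Complex.I * s with hb
  have hare : a.re < 0 := by
    rw [ha]; simp; linarith
  have hbre : 0 < b.re := by
    rw [hb]; simp; linarith
  have h1 : ∀ z ∈ Ioi (0 : ℝ), Complex.exp (-(2 * Real.pi * Complex.I * ((z * s : ℝ) : ℂ))) *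
      (Complex.I * Complex.exp (Complex.I * k * (|z| : ℝ)) / (2 * k)) =
      (Complex.I / (2 * k)) * Complex.exp (a * z) := by
    intro z hz
    have hz0 : (0 : ℝ) < z := hz
    rw [abs_of_pos hz0]
    have : Complex.exp (a * z) = Complex.exp (-(2 * Real.pi * Complex.I * ((z * s : ℝ) : ℂ))) *
        Complex.exp (Complex.I * k * (z : ℝ)) := by
      rw [← Complex.exp_add]
      congr 1
      rw [ha]; push_cast; ring
    rw [this]
    ring
  have h2 : ∀ z ∈ Iic (0 : ℝ), Complex.exp (-(2 * Real.pi * Complex.I * ((z * s : ℝ) : ℂ))) *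
      (Complex.I * Complex.exp (Complex.I * k * (|z| : ℝ)) / (2 * k)) =
      (Complex.I / (2 * k)) * Complex.exp (b * z) := by
    intro z hz
    have hz0 : z ≤ (0 : ℝ) := hz
    rw [abs_of_nonpos hz0]
    have : Complex.exp (b * z) = Complex.exp (-(2 * Real.pi * Complex.I * ((z * s : ℝ) : ℂ))) *
        Complex.exp (Complex.I * k * ((-z : ℝ) : ℂ)) := by
      rw [← Complex.exp_add]
      congr 1
      rw [hb]; push_cast; ring
    rw [this]
    ring
  have i1 : IntegrableOn (fun z : ℝ => Complex.exp (-(2 * Real.pi * Complex.I * ((z * s : ℝ) : ℂ))) *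
      (Complex.I * Complex.exp (Complex.I * k * (|z| : ℝ)) / (2 * k))) (Ioi 0) := by
    refine IntegrableOn.congr_fun ?_ (fun z hz => (h1 z hz).symm) measurableSet_Ioi
    exact (integrableOn_exp_mul_complex_Ioi hare 0).const_mul _
  have i2 : IntegrableOn (fun z : ℝ => Complex.exp (-(2 * Real.pi * Complex.I * ((z * s : ℝ) : ℂ))) *
      (Complex.I * Complex.exp (Complex.I * k * (|z| : ℝ)) / (2 * k))) (Iic 0) := by
    refine IntegrableOn.congr_fun ?_ (fun z hz => (h2 z hz).symm) measurableSet_Iic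
    exact (integrableOn_exp_mul_complex_Iic hbre 0).const_mul _
  rw [← intervalIntegral.integral_Iic_add_Ioi i2 i1, setIntegral_congr_fun measurableSet_Iic h2,
    setIntegral_congr_fun measurableSet_Ioi h1, integral_const_mul, integral_const_mul,
    integral_exp_mul_complex_Ioi hare, integral_exp_mul_complex_Iic hbre]
  simp only [Complex.ofReal_zero, mul_zero, Complex.exp_zero]
  have ha0 : a ≠ 0 := by intro h; rw [h] at hare; simp at hare
  have hb0 : b ≠ 0 := by intro h; rw [h] at hbre; simp at hbre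
  have hab : a * b = (((2 * Real.pi * s) ^ 2 : ℝ) : ℂ) * (-1) + k ^ 2 := by
    rw [ha, hb]
    push_cast
    have := Complex.I_sq
    linear_combination (-k ^ 2 + 4 * Real.pi ^ 2 * s ^ 2) * this
  have hD : (((2 * Real.pi * s) ^ 2 : ℝ) : ℂ) - k ^ 2 = -(a * b) := by rw [hab]; ring
  rw [hD]
  have hsub : a - b = 2 * Complex.I * k := by rw [ha, hb]; ring
  have h3 : Complex.I / (2 * k) * (1 / b) + Complex.I / (2 * k) * (-1 / a) =
      Complex.I * (a - b) / (2 * k * (a * b)) := by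
    field_simp
    ring
  rw [h3, hsub]
  have := Complex.I_sq
  field_simp
  linear_combination this

/-- Fourier transform of the Green function, first for a multiple of the first basis vector -/
theorem green_hat0 {k : ℂ} (hk : 0 < k.im) (s : ℝ) :
    ∫ x : E3, Complex.exp (-(2 * Real.pi * Complex.I * ((x 0 * s : ℝ) : ℂ))) * gk k ‖x‖ =
      1 / ((((2 * Real.pi * s) ^ 2 : ℝ) : ℂ) - k ^ 2) := by
  set F : ℝ × (ℝ × ℝ) → ℂ := fun q => Complex.exp (-(2 * Real.pi * Complex.I * ((q.1 * s : ℝ) : ℂ))) *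
    gk k (√(q.1 ^ 2 + (q.2.1 ^ 2 + q.2.2 ^ 2))) with hF
  have h1 : ∀ x : E3, Complex.exp (-(2 * Real.pi * Complex.I * ((x 0 * s : ℝ) : ℂ))) * gk k ‖x‖ =
      F (e3 x) := by
    intro x
    rw [norm_E3]
    rfl
  have hint : Integrable (fun x : E3 => Complex.exp (-(2 * Real.pi * Complex.I *
      ((x 0 * s : ℝ) : ℂ))) * gk k ‖x‖) volume := by
    refine (green_int hk).norm.mono' ?_ (Eventually.of_forall fun x => ?_)
    · apply AEStronglyMeasurable.mul
      · apply Continuous.aestronglyMeasurable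
        fun_prop
      · exact (green_int hk).1
    · rw [norm_mul]
      have : ‖Complex.exp (-(2 * Real.pi * Complex.I * ((x 0 * s : ℝ) : ℂ)))‖ = 1 := by
        rw [Complex.norm_exp]
        simp
      rw [this, one_mul]
  have hFi : Integrable F volume := by
    simp only [h1] at hint
    exact (e3_mp.integrable_comp_emb e3.measurableEmbedding).1 hint
  simp only [h1]
  rw [e3_mp.integral_comp' (g := F)]
  rw [Measure.volume_eq_prod] at hFi ⊢
  rw [integral_prod F hFi]
  rw [← line_int hk s]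
  congr 1
  funext z
  simp only [hF]
  rw [integral_const_mul, slice_int hk z]

theorem green_hat {k : ℂ} (hk : 0 < k.im) (ξ : E3) :
    ∫ x : E3, Complex.exp (-(2 * Real.pi * Complex.I * ((inner ℝ x ξ : ℝ) : ℂ))) * gk k ‖x‖ =
      1 / ((((2 * Real.pi * ‖ξ‖) ^ 2 : ℝ) : ℂ) - k ^ 2) := by
  set v : E3 := EuclideanSpace.single 0 ‖ξ‖ with hv
  have hvn : ‖v‖ = ‖ξ‖ := by
    rw [hv, PiLp.norm_single, norm_norm]
  set L : E3 ≃ₗᵢ[ℝ] E3 := Submodule.reflection (ℝ ∙ (v - ξ))ᗮ with hL
  have hLv : L v = ξ := Submodule.reflection_sub hvn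
  rw [← green_hat0 hk ‖ξ‖]
  rw [← L.measurePreserving.integral_comp' (f := L.toMeasurableEquiv)]
  congr 1
  funext x
  show Complex.exp (-(2 * Real.pi * Complex.I * ((inner ℝ (L x) ξ : ℝ) : ℂ))) * gk k ‖L x‖ = _
  rw [L.norm_map]
  have h2 : inner ℝ (L x) ξ = x 0 * ‖ξ‖ := by
    conv_lhs => rw [← hLv]
    rw [L.inner_map_map, hv, EuclideanSpace.inner_single_right]
    simp [mul_comm]
  rw [h2]

theorem green_fourier {k : ℂ} (hk : 0 < k.im) (ξ : E3) :
    𝓕 (fun x : E3 => gk k ‖x‖) ξ = 1 / ((((2 * Real.pi * ‖ξ‖) ^ 2 : ℝ) : ℂ) - k ^ 2) := by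
  rw [← green_hat hk ξ, Real.fourier_eq']
  refine integral_congr_ae (Filter.Eventually.of_forall fun x => ?_)
  simp only [smul_eq_mul]
  congr 2
  push_cast
  ring

/-- `u`, bounded and integrable, is in `L²` -/
theorem memLp_two {f : E3 → ℂ} (hi : Integrable f volume) {C : ℝ} (hC : ∀ x, ‖f x‖ ≤ C) :
    MemLp f 2 volume := by
  rw [memLp_two_iff_integrable_sq_norm hi.1]
  refine (hi.norm.const_mul C).mono' (hi.1.norm.pow 2) (Eventually.of_forall fun x => ?_)
  rw [Real.norm_eq_abs, abs_of_nonneg (by positivity), sq]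
  exact mul_le_mul_of_nonneg_right (hC x) (norm_nonneg _)

/-- Part F: from a bounded solution of `u = - G_k (V u)` to an eigenfunction -/
theorem eigen_of_fix (k : ℂ) (hk : 0 < k.im) (V : E3 → ℂ) (hVm : Measurable V)
    (hVb : ∃ C : ℝ, ∀ x, ‖V x‖ ≤ C) (hVi : Integrable V volume)
    (u : E3 → ℂ) (hum : Measurable u) (hub : ∃ C : ℝ, ∀ x, ‖u x‖ ≤ C) (hne : ∃ x, u x ≠ 0)
    (hfix : ∀ x, u x = - ∫ y, gk k ‖x - y‖ * (V y * u y)) :
    ∃ U : L2, U ≠ 0 ∧ IsHu V U (k ^ 2 • U) := by
  obtain ⟨CV, hCV⟩ := hVb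
  obtain ⟨Cu, hCu⟩ := hub
  set f : E3 → ℂ := fun y => V y * u y with hf
  set g : E3 → ℂ := fun x => gk k ‖x‖ with hg
  have hgi : Integrable g volume := green_int hk
  have hfi : Integrable f volume := by
    refine (hVi.norm.const_mul Cu).mono' (hVm.mul hum).aestronglyMeasurable
      (Eventually.of_forall fun x => ?_)
    simp only [hf]
    rw [norm_mul, mul_comm]
    exact mul_le_mul_of_nonneg_right (hCu x) (norm_nonneg _)
  have hfb : ∀ x, ‖f x‖ ≤ CV * Cu := by
    intro x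
    simp only [hf]
    rw [norm_mul]
    exact mul_le_mul (hCV x) (hCu x) (norm_nonneg _) ((norm_nonneg _).trans (hCV x))
  have hf2 : MemLp f 2 volume := memLp_two hfi hfb
  have hconv : u = fun x => - convolution f g (ContinuousLinearMap.mul ℂ ℂ) volume x := by
    funext x
    rw [hfix x]
    congr 1
    unfold convolution
    congr 1
    funext y
    simp only [ContinuousLinearMap.mul_apply', hf, hg]
    ring
  have hui : Integrable u volume := by
    rw [hconv]
    exact (hfi.integrable_convolution (ContinuousLinearMap.mul ℂ ℂ) hgi).neg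
  have hu2 : MemLp u 2 volume := memLp_two hui hCu
  have hFu : ∀ ξ, 𝓕 u ξ = - (𝓕 f ξ * (1 / ((((2 * Real.pi * ‖ξ‖) ^ 2 : ℝ) : ℂ) - k ^ 2))) := by
    intro ξ
    have h1 := Real.fourier_mul_convolution_eq hfi hgi ξ
    rw [green_fourier hk] at h1
    rw [← h1]
    conv_lhs => rw [hconv]
    rw [Real.fourier_eq', Real.fourier_eq', ← integral_neg]
    congr 1
    funext x
    simp
  set U : L2 := hu2.toLp u with hU
  set G : L2 := hf2.toLp f with hG
  have hUc : (U : E3 → ℂ) =ᵐ[volume] u := hu2.coeFn_toLp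
  have hGc : (G : E3 → ℂ) =ᵐ[volume] f := hf2.coeFn_toLp
  have fI : ∀ w : E3 → ℂ, (fun ξ : E3 => ∫ x : E3,
      Complex.exp (-(2 * Real.pi * Complex.I * ((inner ℝ x ξ : ℝ) : ℂ))) * w x) = 𝓕 w := by
    intro w
    funext ξ
    rw [Real.fourier_eq']
    refine integral_congr_ae (Filter.Eventually.of_forall fun x => ?_)
    simp only [smul_eq_mul]
    congr 2
    push_cast
    ring
  have hUh : (fun ξ : E3 => hat U ξ) =ᵐ[volume] 𝓕 u := by
    have := Pool.Agent.Helper209.CX.K01.d1_fourier 3 u hui hu2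
    rw [fI u] at this
    exact this
  have hGh : (fun ξ : E3 => hat G ξ) =ᵐ[volume] 𝓕 f := by
    have := Pool.Agent.Helper209.CX.K01.d1_fourier 3 f hfi hf2
    rw [fI f] at this
    exact this
  have hrel : (fun ξ : E3 => hat U ξ) =ᵐ[volume] fun ξ : E3 =>
      hat G ξ * (-(1 / ((((2 * Real.pi * ‖ξ‖) ^ 2 : ℝ) : ℂ) - k ^ 2))) := by
    filter_upwards [hUh, hGh] with ξ h1 h2
    rw [h1, h2, hFu]
    ring
  have hH1 : InH1 U := by
    refine Pool.Agent.Helper209.CX.K09.D9.inH1_of_mult (d := 3) G U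
      (fun ξ => -(1 / ((((2 * Real.pi * ‖ξ‖) ^ 2 : ℝ) : ℂ) - k ^ 2)))
      (1 / Pool.Agent.Helper209.CX.K09.D9.cc k) hrel ?_
    intro ξ
    have hc := Pool.Agent.Helper209.CX.K09.D9.cc_pos hk
    have h1 := Pool.Agent.Helper209.CX.K09.D9.lower hk (2 * Real.pi * ‖ξ‖) (by positivity)
    have h2 : 0 < Pool.Agent.Helper209.CX.K09.D9.cc k * (1 + (2 * Real.pi * ‖ξ‖) ^ 2) := by positivity
    rw [norm_neg, norm_div, norm_one, mul_one_div, div_le_div_iff₀ (lt_of_lt_of_le h2 h1) hc]
    have h3 : ‖ξ‖ ≤ 1 + (2 * Real.pi * ‖ξ‖) ^ 2 := by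
      have hpi := Real.pi_gt_three
      have h4 : ‖ξ‖ ^ 2 ≤ (2 * Real.pi * ‖ξ‖) ^ 2 := by
        apply pow_le_pow_left₀ (norm_nonneg _)
        nlinarith [norm_nonneg ξ]
      nlinarith [sq_nonneg (‖ξ‖ - 1 / 2)]
    nlinarith
  refine ⟨U, ?_, hH1, ?_⟩
  · intro hU0
    obtain ⟨x0, hx0⟩ := hne
    apply hx0
    rw [hfix x0]
    have h1 : u =ᵐ[volume] fun _ => 0 := by
      refine hUc.symm.trans ?_
      rw [hU0]
      exact Lp.coeFn_zero ℂ 2 volume
    have h2 : ∫ y, gk k ‖x0 - y‖ * (V y * u y) = 0 := by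
      rw [← integral_zero E3 ℂ]
      apply integral_congr_ae
      filter_upwards [h1] with y hy
      rw [hy]
      simp
    rw [h2, neg_zero]
  · intro φ hφ
    have hpot : (fun x => potential V U φ x) =ᵐ[volume] fun x => G x * (starRingEnd ℂ) (φ x) := by
      filter_upwards [hUc, hGc] with x h1 h2
      unfold potential
      rw [h1, h2]
    have hGint := Pool.Agent.Helper209.CX.K08.d8e_intmul (d := 3) (Lp.memLp G) (Lp.memLp φ)
    refine ⟨hGint.congr hpot.symm, ?_⟩
    rw [integral_congr_ae hpot]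
    obtain ⟨iU, eU⟩ := Pool.Agent.Helper209.CX.K08.d8e_planch (d := 3) U φ
    obtain ⟨iG, eG⟩ := Pool.Agent.Helper209.CX.K08.d8e_planch (d := 3) G φ
    have hdir : dirichlet U φ = ∫ ξ : E3, (k ^ 2 * (hat U ξ * (starRingEnd ℂ) (hat φ ξ)) -
        hat G ξ * (starRingEnd ℂ) (hat φ ξ)) := by
      unfold dirichlet
      apply integral_congr_ae
      filter_upwards [hrel] with ξ h1
      have hne := Pool.Agent.Helper209.CX.K09.D9.ne_zero (d := 3) hk ξ
      unfold Pool.Agent.Helper209.CX.K09.D9.lam at hne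
      have h2 : ((((2 * Real.pi * ‖ξ‖) ^ 2 : ℝ) : ℂ)) * hat U ξ = k ^ 2 * hat U ξ - hat G ξ := by
        rw [h1]
        obtain ⟨A, hA⟩ : ∃ A : ℂ, A = (((2 * Real.pi * ‖ξ‖) ^ 2 : ℝ) : ℂ) := ⟨_, rfl⟩
        rw [← hA] at hne ⊢
        field_simp
        ring
      rw [h2]
      ring
    have iU' : Integrable (fun ξ => hat U ξ * (starRingEnd ℂ) (hat φ ξ)) volume := iU
    have iG' : Integrable (fun ξ => hat G ξ * (starRingEnd ℂ) (hat φ ξ)) volume := iG
    rw [hdir, integral_sub (iU'.const_mul _) iG', integral_const_mul]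
    have hs : pairing (k ^ 2 • U) φ = k ^ 2 * ∫ x, U x * (starRingEnd ℂ) (φ x) := by
      unfold pairing
      rw [← integral_const_mul]
      apply integral_congr_ae
      filter_upwards [Lp.coeFn_smul (k ^ 2) U] with x hx
      rw [hx]
      simp only [Pi.smul_apply, smul_eq_mul]
      ring
    rw [hs]
    have eU' : ∫ ξ, hat U ξ * (starRingEnd ℂ) (hat φ ξ) = ∫ x, U x * (starRingEnd ℂ) (φ x) := eU
    have eG' : ∫ ξ, hat G ξ * (starRingEnd ℂ) (hat φ ξ) = ∫ x, G x * (starRingEnd ℂ) (φ x) := eG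
    rw [eU', eG']
    ring

end Pool.Agent.Helper96.CE
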